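import Pool.Agent.Y677.RSZ.Stm
import Pool.Agent.TH423.SH.PRDP

/-!
# Progressions in dense sets of primes of a residue class

The case `F n = a + q n` of Szemerédi's theorem relative to sifted sets (`S_ENG`, helper677).
-/

set_option autoImplicit false

open Finset

namespace Pool.Agent.Y866.PP

open Pool.Agent.TH423.SH (PS PIj prb)
open Pool.Agent.Y677.RSZ (rt V Sys S_ENG)

/-- dense sets of primes of a residue class contain progressions, in terms of the number `X` of the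
integers of the class -/
def PROG : Prop := ∀ (k g : ℕ) (κ δ : ℝ), 0 < κ → 0 < δ →
    ∃ B X₀ : ℕ, ∀ X A q a : ℕ, X₀ ≤ X → 1 ≤ q → a.Coprime q → a + q * (A + X) ≤ X ^ g →
      ∀ S : Finset ℕ, S ⊆ Ioc A (A + X) →
      (∀ n ∈ S, (a + q * n).Prime ∧ (X : ℝ) ^ κ < ((a + q * n : ℕ) : ℝ)) →
      δ * (X * (q / (q.totient : ℝ)) / Real.log X) ≤ S.card →
      ∃ n d : ℕ, 1 ≤ d ∧ (d : ℝ) ≤ Real.log X ^ B ∧ ∀ j < k, n + j * d ∈ S

/-- the function `n ↦ a + q n` -/
def Fl (a q : ℕ) : ℤ → ℤ := fun n => a + q * n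

theorem rt_card_le (a q : ℕ) (haq : a.Coprime q) {p : ℕ} (hp : p.Prime) : rt (Fl a q) p ≤ 1 := by
  unfold rt Fl
  rw [card_le_one]
  intro c hc c' hc'
  rw [mem_filter, mem_range] at hc hc'
  have hpi : Prime (p : ℤ) := Nat.prime_iff_prime_int.1 hp
  have e1 : (p : ℤ) ∣ a + q * c := hc.2
  have e2 : (p : ℤ) ∣ a + q * c' := hc'.2
  have e3 : (p : ℤ) ∣ (q : ℤ) * ((c : ℤ) - c') := by
    have := dvd_sub e1 e2
    rwa [show ((a : ℤ) + q * c) - (a + q * c') = q * ((c : ℤ) - c') by ring] at this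
  rcases hpi.dvd_or_dvd e3 with h | h
  · exfalso
    have h1 : p ∣ q := by exact_mod_cast h
    have h2 : p ∣ a := by
      have h4 : p ∣ a + q * c := by exact_mod_cast e1
      exact (Nat.dvd_add_left (h1.mul_right c)).1 h4
    have h3 := Nat.dvd_gcd h2 h1
    rw [haq] at h3
    exact hp.one_lt.ne' (Nat.dvd_one.1 h3)
  · have h1 : c % p = c' % p := (Nat.modEq_iff_dvd.2 (by
      rw [← neg_sub]; exact (dvd_neg).2 h))
    rwa [Nat.mod_eq_of_lt hc.1, Nat.mod_eq_of_lt hc'.1] at h1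

theorem rt_eq_one (a q : ℕ) (haq : a.Coprime q) {p : ℕ} (hp : p.Prime) (hpq : ¬ p ∣ q) :
    rt (Fl a q) p = 1 := by
  refine le_antisymm (rt_card_le a q haq hp) ?_
  unfold rt
  rw [Nat.one_le_iff_ne_zero, ← Nat.pos_iff_ne_zero, card_pos]
  haveI := Fact.mk hp
  have hq : (q : ZMod p) ≠ 0 := by
    intro h
    exact hpq ((ZMod.natCast_eq_zero_iff q p).1 h)
  refine ⟨(-(a : ZMod p) * (q : ZMod p)⁻¹).val, ?_⟩
  unfold Fl
  rw [mem_filter, mem_range]
  refine ⟨ZMod.val_lt _, ?_⟩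
  rw [← ZMod.intCast_zmod_eq_zero_iff_dvd]
  push_cast
  rw [ZMod.natCast_zmod_val]
  field_simp
  ring

theorem rt_eq_zero (a q : ℕ) (haq : a.Coprime q) {p : ℕ} (hp : p.Prime) (hpq : p ∣ q) :
    rt (Fl a q) p = 0 := by
  unfold rt Fl
  rw [card_eq_zero, filter_eq_empty_iff]
  intro c _ h
  have h1 : p ∣ a + q * c := by exact_mod_cast h
  have h2 : p ∣ a := (Nat.dvd_add_left (hpq.mul_right c)).1 h1
  have h3 := Nat.dvd_gcd h2 hpq
  rw [haq] at h3
  exact hp.one_lt.ne' (Nat.dvd_one.1 h3)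

theorem V_eq (a q : ℕ) (haq : a.Coprime q) (Y : ℕ) : V (Fl a q) 1 Y = PIj q Y 1 := by
  unfold V PIj
  symm
  have hsub : PS q Y ⊆ PS 1 Y := by
    intro p hp
    unfold PS at hp ⊢
    rw [mem_filter] at hp ⊢
    exact ⟨hp.1, hp.2.1, by rw [Nat.dvd_one]; exact hp.2.1.ne_one⟩
  rw [← prod_subset hsub]
  · apply prod_congr rfl
    intro p hp
    unfold PS at hp
    rw [mem_filter] at hp
    rw [rt_eq_one a q haq hp.2.1 hp.2.2]
  · intro p hp hp2
    unfold PS at hp
    rw [mem_filter] at hp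
    have hpq : p ∣ q := by
      by_contra hcon
      apply hp2
      unfold PS
      rw [mem_filter]
      exact ⟨hp.1, hp.2.1, hcon⟩
    rw [rt_eq_zero a q haq hp.2.1 hpq]
    simp

theorem Fl_sys (a q g : ℕ) (haq : a.Coprime q) (hg : 1 ≤ g) : Sys g (Fl a q) where
  per := by
    intro p _ n
    unfold Fl
    rw [show ((a : ℤ) + q * (n + p)) - (a + q * n) = p * q by ring]
    exact dvd_mul_right _ _
  root := by
    intro p hp
    have h1 := rt_card_le a q haq hp
    exact ⟨h1.trans hg, lt_of_le_of_lt h1 hp.one_lt⟩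
  coll := by
    refine ⟨fun h => h, fun h hh => ⟨hg.trans hh, Nat.le_self_pow (by omega) h, ?_⟩⟩
    intro p hp n h1 h2
    unfold Fl at h1 h2
    have hpi : Prime (p : ℤ) := Nat.prime_iff_prime_int.1 hp
    have e3 : (p : ℤ) ∣ (q : ℤ) * (h : ℤ) := by
      have := dvd_sub h2 h1
      rwa [show ((a : ℤ) + q * (n + h)) - (a + q * n) = q * (h : ℤ) by ring] at this
    rcases hpi.dvd_or_dvd e3 with h3 | h3
    · exfalso
      have h5 : (p : ℤ) ∣ a := (Int.dvd_add_left (h3.mul_right n)).1 h1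
      have h6 : p ∣ a := by exact_mod_cast h5
      have h7 : p ∣ q := by exact_mod_cast h3
      have h8 := Nat.dvd_gcd h6 h7
      rw [haq] at h8
      exact hp.one_lt.ne' (Nat.dvd_one.1 h8)
    · exact_mod_cast h3

theorem prog_of_eng (hE : S_ENG) : PROG := by
  intro k g κ δ hκ hδ
  obtain ⟨B, X₀, h⟩ := hE (max k 2) (max g 1) κ δ (le_max_right _ _) hκ hδ
  refine ⟨B, max X₀ 3, fun X A q a hX hq haq hg S hS hSp hSc => ?_⟩
  have hXX₀ : X₀ ≤ X := (le_max_left _ _).trans hX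
  have hX3 : 3 ≤ X := (le_max_right _ _).trans hX
  have hX0 : (0 : ℝ) < X := by exact_mod_cast (by omega : 0 < X)
  have hlX : 0 < Real.log X := Real.log_pos (by exact_mod_cast (by omega : 1 < X))
  have hq0 : (0 : ℝ) < q := by exact_mod_cast hq
  have hφ : (0 : ℝ) < q.totient := by exact_mod_cast Nat.totient_pos.2 hq
  obtain ⟨n, d, hd1, hd2, hnd⟩ := h (Fl a q) A X S (Fl_sys a q _ haq (le_max_right _ _)) hXX₀ (by
    intro n hn
    rw [mem_Ioc] at hn
    have h1 : Fl a q (n : ℤ) = ((a + q * n : ℕ) : ℤ) := by unfold Fl; push_cast; rfl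
    rw [h1]
    have h2 : 1 ≤ q * n := Nat.one_le_iff_ne_zero.2 (Nat.mul_ne_zero (by omega) (by omega))
    refine ⟨by exact_mod_cast (by omega : a + q * n ≠ 0), ?_⟩
    rw [Nat.abs_cast]
    have h3 : a + q * n ≤ X ^ (max g 1) := by
      calc a + q * n ≤ a + q * (A + X) := Nat.add_le_add_left (Nat.mul_le_mul_left q hn.2) a
        _ ≤ X ^ g := hg
        _ ≤ X ^ (max g 1) := Nat.pow_le_pow_right (by omega) (le_max_left _ _)
    exact_mod_cast h3) hS (by
    intro n hn p hp hpX hnp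
    obtain ⟨h1, h2⟩ := hSp n hn
    unfold Fl at hnp
    have h3 : p ∣ a + q * n := by exact_mod_cast hnp
    have h4 : p = a + q * n := (Nat.prime_dvd_prime_iff_eq hp h1).1 h3
    rw [← h4] at h2
    linarith) (by
    rw [V_eq a q haq]
    have hp := prb q X hq (by omega)
    refine le_trans ?_ hSc
    have h6 : PIj q X 1 ≤ q / (q.totient : ℝ) / Real.log X := by
      rw [le_div_iff₀ hlX, le_div_iff₀ hφ]
      exact hp
    calc δ * (X * PIj q X 1) ≤ δ * (X * (q / (q.totient : ℝ) / Real.log X)) := by gcongr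
      _ = δ * (X * (q / (q.totient : ℝ)) / Real.log X) := by ring)
  exact ⟨n, d, hd1, hd2, fun j hj => hnd j (lt_of_lt_of_le hj (le_max_left _ _))⟩

end Pool.Agent.Y866.PP
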