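import Pool.Agent.Y866.PP.Prog2

/-!
# Progressions in dense sets of primes of a residue class, in intervals
-/

set_option autoImplicit false

open Finset

namespace Pool.Agent.Y866.PP

theorem ev_nat (c ε : ℝ) (hc : 0 < c) (hε : 0 < ε) (X₀ : ℕ) : ∃ x₀ : ℕ, ∀ w : ℕ, x₀ ≤ w →
    2 ≤ Real.log w ∧ (X₀ : ℝ) + 3 ≤ (w : ℝ) ^ ε ∧
    ∀ X : ℕ, (w : ℝ) ^ ε ≤ X → (1 + (X : ℝ) ^ (1 / 2 : ℝ)) * Real.log X ≤ c * X := by
  have h0 : Filter.Tendsto (fun w : ℕ => (w : ℝ)) Filter.atTop Filter.atTop :=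
    tendsto_natCast_atTop_atTop
  have h1 : Filter.Tendsto (fun w : ℕ => (w : ℝ) ^ ε) Filter.atTop Filter.atTop :=
    (tendsto_rpow_atTop hε).comp h0
  have h2 : Filter.Tendsto (fun w : ℕ => Real.log w) Filter.atTop Filter.atTop :=
    Real.tendsto_log_atTop.comp h0
  have h3 : ∀ᶠ t : ℝ in Filter.atTop, (1 + t ^ (1 / 2 : ℝ)) * Real.log t ≤ c * t := by
    have h4 := (isLittleO_log_rpow_atTop (show (0 : ℝ) < 1 / 4 by norm_num)).bound
      (show (0 : ℝ) < c / 2 by positivity)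
    filter_upwards [h4, Filter.eventually_ge_atTop (1 : ℝ)] with t ht ht1
    have ht0 : 0 < t := by linarith
    rw [Real.norm_of_nonneg (Real.log_nonneg ht1),
      Real.norm_of_nonneg (Real.rpow_nonneg ht0.le _)] at ht
    have e1 : (1 : ℝ) ≤ t ^ (1 / 2 : ℝ) := Real.one_le_rpow ht1 (by norm_num)
    have e2 : (1 : ℝ) ≤ t ^ (1 / 4 : ℝ) := Real.one_le_rpow ht1 (by norm_num)
    have e3 : t ^ (1 / 2 : ℝ) * t ^ (1 / 4 : ℝ) * t ^ (1 / 4 : ℝ) = t := by
      rw [← Real.rpow_add ht0, ← Real.rpow_add ht0]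
      norm_num
    have e4 : 0 ≤ Real.log t := Real.log_nonneg ht1
    calc (1 + t ^ (1 / 2 : ℝ)) * Real.log t ≤ (2 * t ^ (1 / 2 : ℝ)) * Real.log t := by
          apply mul_le_mul_of_nonneg_right _ e4
          linarith
      _ ≤ (2 * t ^ (1 / 2 : ℝ)) * (c / 2 * t ^ (1 / 4 : ℝ)) := by gcongr
      _ = c * (t ^ (1 / 2 : ℝ) * t ^ (1 / 4 : ℝ)) := by ring
      _ ≤ c * (t ^ (1 / 2 : ℝ) * t ^ (1 / 4 : ℝ) * t ^ (1 / 4 : ℝ)) := by
          apply mul_le_mul_of_nonneg_left _ hc.le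
          exact le_mul_of_one_le_right (by positivity) e2
      _ = c * t := by rw [e3]
  obtain ⟨T, hT⟩ := Filter.eventually_atTop.1 h3
  obtain ⟨x₀, hx₀⟩ := Filter.eventually_atTop.1 ((h2.eventually_ge_atTop 2).and
    ((h1.eventually_ge_atTop ((X₀ : ℝ) + 3)).and (h1.eventually_ge_atTop T)))
  refine ⟨x₀, fun w hw => ?_⟩
  obtain ⟨a1, a2, a3⟩ := hx₀ w hw
  exact ⟨a1, a2, fun X hX => hT X (a3.trans hX)⟩

/-- dense sets of primes of a residue class in an interval contain progressions -/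
theorem prog_interval (hG : PROG) (k : ℕ) (ε δ : ℝ) (hε : 0 < ε) (hδ : 0 < δ) :
    ∃ B x₀ : ℕ, ∀ u y q : ℕ, x₀ ≤ u + y → 1 ≤ q → (q : ℝ) * ((u + y : ℕ) : ℝ) ^ ε ≤ y →
      ∀ a : ℤ, IsCoprime a (q : ℤ) → ∀ P : Finset ℕ,
      (∀ p ∈ P, p.Prime ∧ u < p ∧ p ≤ u + y ∧ (p : ℤ) ≡ a [ZMOD q]) →
      δ * (y / (q.totient * Real.log ((u + y : ℕ) : ℝ))) ≤ P.card →
      ∃ p d : ℕ, 1 ≤ d ∧ (d : ℝ) ≤ Real.log ((u + y : ℕ) : ℝ) ^ B ∧ ∀ j < k, p + j * (q * d) ∈ P := by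
  obtain ⟨B, X₀, h⟩ := hG k (⌈1 / ε⌉₊ + 1) (1 / 2) (δ * ε / 4) (by norm_num) (by positivity)
  obtain ⟨x₀, hx₀⟩ := ev_nat (δ * ε / 4) ε (by positivity) hε X₀
  refine ⟨2 * B, x₀, fun u y q hw hq hqy a ha P hP hPc => ?_⟩
  obtain ⟨w, hwd⟩ : ∃ w : ℕ, w = u + y := ⟨_, rfl⟩
  rw [← hwd] at hw hqy hPc ⊢
  obtain ⟨f1, f2, f3⟩ := hx₀ w hw
  have hw0 : (0 : ℝ) < w := by
    by_contra hcon
    have : (w : ℝ) = 0 := le_antisymm (not_lt.1 hcon) (Nat.cast_nonneg w)
    rw [this, Real.log_zero] at f1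
    linarith
  have hq0 : (0 : ℝ) < q := by exact_mod_cast hq
  have hφ : (0 : ℝ) < q.totient := by exact_mod_cast Nat.totient_pos.2 hq
  obtain ⟨X, hX⟩ : ∃ X : ℕ, X = y / q + 1 := ⟨_, rfl⟩
  have hX1 : (y : ℝ) / q < X := by
    rw [div_lt_iff₀ hq0]
    have h1 := Nat.lt_mul_div_succ y (show 0 < q by omega)
    have h2 : y < X * q := by rw [hX, mul_comm]; exact h1
    exact_mod_cast h2
  have hXw : (w : ℝ) ^ ε ≤ X := by
    have : (w : ℝ) ^ ε ≤ y / q := by
      rw [le_div_iff₀ hq0, mul_comm]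
      exact hqy
    linarith
  have hX3 : (X₀ : ℝ) + 3 ≤ X := f2.trans hXw
  have hX0n := (Nat.cast_nonneg X₀ : (0 : ℝ) ≤ X₀)
  have hXpos : (0 : ℝ) < X := by linarith
  have hXX₀ : X₀ ≤ X := by
    have : (X₀ : ℝ) ≤ X := by linarith
    exact_mod_cast this
  have hX2 : (X : ℝ) ≤ 2 * (y / q) := by
    have h1 : ((y / q : ℕ) : ℝ) ≤ (y : ℝ) / q := Nat.cast_div_le
    have h2 : (X : ℝ) = ((y / q : ℕ) : ℝ) + 1 := by rw [hX]; push_cast; ring
    have h3 : (3 : ℝ) ≤ ((y / q : ℕ) : ℝ) + 1 := by rw [← h2]; linarith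
    rw [h2]
    linarith
  have hlX : ε * Real.log w ≤ Real.log X := by
    rw [← Real.log_rpow hw0]
    exact Real.log_le_log (by positivity) hXw
  have hlXpos : 0 < Real.log X := lt_of_lt_of_le (by positivity) hlX
  -- the representative of the class
  obtain ⟨a', ha'⟩ : ∃ a' : ℕ, a' = (a % (q : ℤ)).toNat := ⟨_, rfl⟩
  have hqz : (q : ℤ) ≠ 0 := by exact_mod_cast (by omega : q ≠ 0)
  have ha'z : (a' : ℤ) = a % q := by
    rw [ha']; exact Int.toNat_of_nonneg (Int.emod_nonneg a hqz)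
  have ha'q : a' < q := by
    have : (a' : ℤ) < q := by rw [ha'z]; exact Int.emod_lt_of_pos a (by omega)
    exact_mod_cast this
  have hcop : a'.Coprime q := by
    rw [← Nat.isCoprime_iff_coprime, ha'z]
    have h1 : a % (q : ℤ) = a + q * (-(a / q)) := by
      have := Int.emod_add_mul_ediv a q
      linarith
    rw [h1]
    exact (IsCoprime.add_mul_left_left ha _)
  have hmod : ∀ p ∈ P, p = a' + q * (p / q) := by
    intro p hp
    have h1 := (hP p hp).2.2.2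
    have h2 : (p : ℤ) % q = a % q := h1
    have h3 : ((p % q : ℕ) : ℤ) = a' := by
      rw [ha'z, ← h2]; exact Int.natCast_mod p q
    have h4 : p % q = a' := by exact_mod_cast h3
    rw [← h4]
    exact (Nat.mod_add_div p q).symm
  -- the set
  obtain ⟨P', hP'⟩ : ∃ P' : Finset ℕ, P' = P.filter (fun p => u / q < p / q ∧ (X : ℝ) ^ (1 / 2 : ℝ) < p) :=
    ⟨_, rfl⟩
  obtain ⟨S, hS⟩ : ∃ S : Finset ℕ, S = P'.image (fun p => p / q) := ⟨_, rfl⟩
  have hScard : S.card = P'.card := by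
    rw [hS]
    apply card_image_of_injOn
    intro p hp p' hp' hpp
    rw [mem_coe, hP', mem_filter] at hp hp'
    simp only at hpp
    rw [hmod p hp.1, hmod p' hp'.1, hpp]
  have hP'card : (P.card : ℝ) ≤ P'.card + (1 + (X : ℝ) ^ (1 / 2 : ℝ)) := by
    have h1 : P ⊆ P' ∪ ({a' + q * (u / q)} ∪ Icc 1 ⌊(X : ℝ) ^ (1 / 2 : ℝ)⌋₊) := by
      intro p hp
      rw [mem_union, mem_union, mem_singleton, mem_Icc, hP', mem_filter]
      by_cases h2 : u / q < p / q
      · by_cases h3 : (X : ℝ) ^ (1 / 2 : ℝ) < p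
        · exact Or.inl ⟨hp, h2, h3⟩
        · exact Or.inr (Or.inr ⟨(hP p hp).1.one_lt.le, Nat.le_floor (not_lt.1 h3)⟩)
      · refine Or.inr (Or.inl ?_)
        have h3 : u / q ≤ p / q := Nat.div_le_div_right (hP p hp).2.1.le
        have h4 : p / q = u / q := le_antisymm (not_lt.1 h2) h3
        rw [← h4]
        exact hmod p hp
    have h2 : P.card ≤ P'.card + (1 + ⌊(X : ℝ) ^ (1 / 2 : ℝ)⌋₊) := by
      refine (card_le_card h1).trans ((card_union_le _ _).trans ?_)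
      refine Nat.add_le_add_left ((card_union_le _ _).trans ?_) _
      rw [card_singleton, Nat.card_Icc]
      omega
    have h3 : ((⌊(X : ℝ) ^ (1 / 2 : ℝ)⌋₊ : ℕ) : ℝ) ≤ (X : ℝ) ^ (1 / 2 : ℝ) :=
      Nat.floor_le (by positivity)
    calc (P.card : ℝ) ≤ ((P'.card + (1 + ⌊(X : ℝ) ^ (1 / 2 : ℝ)⌋₊) : ℕ) : ℝ) := by exact_mod_cast h2
      _ = P'.card + (1 + ((⌊(X : ℝ) ^ (1 / 2 : ℝ)⌋₊ : ℕ) : ℝ)) := by push_cast; ring
      _ ≤ _ := by linarith
  have hSP : ∀ n ∈ S, a' + q * n ∈ P' := by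
    intro n hn
    rw [hS, mem_image] at hn
    obtain ⟨p, hp, rfl⟩ := hn
    have h1 : p ∈ P := by rw [hP'] at hp; exact (mem_filter.1 hp).1
    rw [← hmod p h1]
    exact hp
  have hbd : a' + q * (u / q + X) ≤ X ^ (⌈1 / ε⌉₊ + 1) := by
    have h1w : (1 : ℝ) ≤ (w : ℝ) ^ ε := by linarith
    have hqy' : (q : ℝ) ≤ y := by nlinarith
    have hqy'' : q ≤ y := by exact_mod_cast hqy'
    have h3X : 3 ≤ X := by
      have : (3 : ℝ) ≤ X := by linarith
      exact_mod_cast this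
    have h2 : a' + q * (u / q + X) ≤ 3 * w := by
      have h3 : q * (u / q) ≤ u := Nat.mul_div_le u q
      have h4 : q * (y / q) ≤ y := Nat.mul_div_le y q
      have h5 : q * (u / q + X) = q * (u / q) + q * (y / q) + q := by rw [hX]; ring
      omega
    have h6 : w ≤ X ^ ⌈1 / ε⌉₊ := by
      have hX1' : (1 : ℝ) ≤ X := by linarith
      have h7 : (w : ℝ) ≤ (X : ℝ) ^ (⌈1 / ε⌉₊ : ℕ) := by
        calc (w : ℝ) = ((w : ℝ) ^ ε) ^ (1 / ε) := by
              rw [← Real.rpow_mul hw0.le, mul_one_div_cancel hε.ne', Real.rpow_one]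
          _ ≤ (X : ℝ) ^ (1 / ε) := Real.rpow_le_rpow (by positivity) hXw (by positivity)
          _ ≤ (X : ℝ) ^ ((⌈1 / ε⌉₊ : ℕ) : ℝ) :=
              Real.rpow_le_rpow_of_exponent_le hX1' (Nat.le_ceil _)
          _ = (X : ℝ) ^ (⌈1 / ε⌉₊ : ℕ) := Real.rpow_natCast _ _
      exact_mod_cast h7
    calc a' + q * (u / q + X) ≤ 3 * w := h2
      _ ≤ X * X ^ ⌈1 / ε⌉₊ := Nat.mul_le_mul h3X h6
      _ = X ^ (⌈1 / ε⌉₊ + 1) := by rw [pow_succ, mul_comm]
  obtain ⟨n, d, hd1, hd2, hnd⟩ := h X (u / q) q a' hXX₀ hq hcop hbd S (by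
    intro n hn
    have h1 := hSP n hn
    rw [hS, mem_image] at hn
    obtain ⟨p, hp, rfl⟩ := hn
    rw [hP', mem_filter] at hp
    rw [mem_Ioc]
    refine ⟨hp.2.1, ?_⟩
    have h2 : p / q ≤ (u + y) / q := Nat.div_le_div_right (hP p hp.1).2.2.1
    have h3 : (u + y) / q ≤ u / q + y / q + 1 := by
      rw [Nat.div_le_iff_le_mul_add_pred (by omega)]
      have h4 := Nat.lt_mul_div_succ u (show 0 < q by omega)
      have h5 := Nat.lt_mul_div_succ y (show 0 < q by omega)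
      have h6 : q * (u / q + y / q + 1) = q * (u / q + 1) + q * (y / q + 1) - q := by
        have : q * (u / q + 1) + q * (y / q + 1) = q * (u / q + y / q + 1) + q := by ring
        omega
      omega
    rw [hX]
    omega) (by
    intro n hn
    have h1 := hSP n hn
    rw [hP', mem_filter] at h1
    exact ⟨(hP _ h1.1).1, h1.2.2⟩) (by
    rw [hScard]
    have h1 : δ * ε / 2 * (X * (q / (q.totient : ℝ)) / Real.log X) ≤ P.card := by
      refine le_trans ?_ hPc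
      have h2 : (X : ℝ) * (q / (q.totient : ℝ)) ≤ 2 * (y / q.totient) := by
        calc (X : ℝ) * (q / (q.totient : ℝ)) ≤ 2 * (y / q) * (q / (q.totient : ℝ)) := by gcongr
          _ = 2 * (y / q.totient) := by field_simp
      have h3 : (X : ℝ) * (q / (q.totient : ℝ)) / Real.log X ≤
          2 * (y / q.totient) / (ε * Real.log w) := by
        apply div_le_div₀ (by positivity) h2 (by positivity) hlX
      calc δ * ε / 2 * (X * (q / (q.totient : ℝ)) / Real.log X)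
          ≤ δ * ε / 2 * (2 * (y / q.totient) / (ε * Real.log w)) := by gcongr
        _ = δ * (y / (q.totient * Real.log w)) := by field_simp
    have h4 : 1 + (X : ℝ) ^ (1 / 2 : ℝ) ≤ δ * ε / 4 * (X * (q / (q.totient : ℝ)) / Real.log X) := by
      have h5 := f3 X hXw
      have h6 : (1 : ℝ) ≤ q / (q.totient : ℝ) := by
        rw [le_div_iff₀ hφ, one_mul]
        exact_mod_cast Nat.totient_le q
      have h7 : (1 + (X : ℝ) ^ (1 / 2 : ℝ)) ≤ δ * ε / 4 * X / Real.log X := by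
        rw [le_div_iff₀ hlXpos]
        exact h5
      refine h7.trans ?_
      have h8 : δ * ε / 4 * X / Real.log X = δ * ε / 4 * (X * 1 / Real.log X) := by ring
      rw [h8]
      gcongr
    have h9 : δ * ε / 2 * (X * (q / (q.totient : ℝ)) / Real.log X) =
      2 * (δ * ε / 4 * (X * (q / (q.totient : ℝ)) / Real.log X)) := by ring
    linarith)
  refine ⟨a' + q * n, d, hd1, ?_, fun j hj => ?_⟩
  · refine hd2.trans ?_
    have h1 : Real.log X ≤ 2 * Real.log w := by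
      have h2 : (X : ℝ) ≤ (w : ℝ) ^ 2 := by
        have h3 : y / q ≤ w := (Nat.div_le_self y q).trans (by omega)
        have h4 : (X : ℝ) ≤ w + 1 := by
          have : X ≤ w + 1 := by rw [hX]; omega
          exact_mod_cast this
        have h5 : (2 : ℝ) ≤ w := by
          have h6 := Real.log_le_sub_one_of_pos hw0
          linarith
        nlinarith
      calc Real.log X ≤ Real.log ((w : ℝ) ^ 2) := Real.log_le_log hXpos h2
        _ = 2 * Real.log w := by rw [Real.log_pow]; norm_num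
    calc Real.log X ^ B ≤ (2 * Real.log w) ^ B := pow_le_pow_left₀ hlXpos.le h1 B
      _ ≤ (Real.log w * Real.log w) ^ B := by
          apply pow_le_pow_left₀ (by linarith)
          nlinarith
      _ = Real.log w ^ (2 * B) := by rw [← pow_two, ← pow_mul]
  · have h1 := hSP _ (hnd j hj)
    rw [hP', mem_filter] at h1
    have h2 : a' + q * n + j * (q * d) = a' + q * (n + j * d) := by ring
    rw [h2]
    exact h1.1

end Pool.Agent.Y866.PP
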