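import Pool.Agent.Y866.PP.Prim2

/-!
# Progressions of primes in the residue classes to large moduli
-/

set_option autoImplicit false

open Finset

namespace Pool.Agent.Y866.PP

/-- the class `a` modulo `d` contains no progression of `k` primes `p + j d r ≤ x`, `0 ≤ j < k`, with
`1 ≤ r ≤ (log x) ^ B` -/
def NoP (k B x d a : ℕ) : Prop := ¬ ∃ p r : ℕ, 1 ≤ r ∧ (r : ℝ) ≤ Real.log x ^ B ∧
  ∀ j < k, (p + j * (d * r)).Prime ∧ p + j * (d * r) ≡ a [MOD d] ∧ p + j * (d * r) ≤ x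

/-- the number of the primes `p ≤ x`, `p ≡ a (mod d)` -/
def cnt (x d a : ℕ) : ℕ := ((Icc 1 x).filter (fun p => p.Prime ∧ p ≡ a [MOD d])).card

theorem li_low (x : ℕ) (hx : 8 ≤ x) : 3 / 4 * ((x : ℝ) / Real.log x) ≤
    ∫ t in (2 : ℝ)..x, 1 / Real.log t := by
  have hxr : (8 : ℝ) ≤ x := by exact_mod_cast hx
  have hl : 0 < Real.log x := Real.log_pos (by linarith)
  have hint : IntervalIntegrable (fun t : ℝ => 1 / Real.log t) MeasureTheory.volume 2 x := by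
    apply ContinuousOn.intervalIntegrable
    intro t ht
    rw [Set.uIcc_of_le (by linarith)] at ht
    have ht2 : (2 : ℝ) ≤ t := ht.1
    apply ContinuousAt.continuousWithinAt
    apply ContinuousAt.div continuousAt_const (Real.continuousAt_log (by linarith))
    exact (Real.log_pos (by linarith)).ne'
  have h1 : ∫ _t in (2 : ℝ)..x, 1 / Real.log x ≤ ∫ t in (2 : ℝ)..x, 1 / Real.log t := by
    apply intervalIntegral.integral_mono_on (by linarith) (by simp) hint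
    intro t ht
    have ht2 : (2 : ℝ) ≤ t := ht.1
    have hlt : 0 < Real.log t := Real.log_pos (by linarith)
    exact one_div_le_one_div_of_le hlt (Real.log_le_log (by linarith) ht.2)
  rw [intervalIntegral.integral_const, smul_eq_mul] at h1
  refine le_trans ?_ h1
  rw [mul_div_assoc', mul_one_div]
  apply div_le_div_of_nonneg_right _ hl.le
  linarith

theorem cnt_of_NoP (hG : PROG) (k : ℕ) (ε : ℝ) (hε : 0 < ε) : ∃ B x₀ : ℕ, 8 ≤ x₀ ∧
    ∀ x d a : ℕ, x₀ ≤ x → 1 ≤ d → (d : ℝ) ≤ (x : ℝ) ^ (1 - ε) → a.Coprime d → NoP k B x d a →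
    (cnt x d a : ℝ) < 1 / 4 * (x / (d.totient * Real.log x)) := by
  obtain ⟨B, x₀, h⟩ := prog_interval hG k ε (1 / 4) hε (by norm_num)
  refine ⟨B, max x₀ 8, le_max_right _ _, fun x d a hx hd hdx hcop hno => ?_⟩
  by_contra hcon
  rw [not_lt] at hcon
  apply hno
  have hx8 : 8 ≤ x := (le_max_right _ _).trans hx
  have hx0 : (0 : ℝ) < x := by exact_mod_cast (by omega : 0 < x)
  obtain ⟨p, r, hr1, hr2, hpr⟩ := h 0 x d (by rw [zero_add]; exact (le_max_left _ _).trans hx) hd (by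
    rw [zero_add]
    calc (d : ℝ) * (x : ℝ) ^ ε ≤ (x : ℝ) ^ (1 - ε) * (x : ℝ) ^ ε := by gcongr
      _ = x := by rw [← Real.rpow_add hx0]; simp) (a : ℤ) (Nat.isCoprime_iff_coprime.2 hcop)
    ((Icc 1 x).filter (fun p => p.Prime ∧ p ≡ a [MOD d])) (by
    intro p hp
    rw [mem_filter, mem_Icc] at hp
    exact ⟨hp.2.1, by omega, by omega, Int.natCast_modEq_iff.2 hp.2.2⟩) (by
    rw [zero_add]; exact hcon)
  rw [zero_add] at hr2
  refine ⟨p, r, hr1, hr2, fun j hj => ?_⟩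
  have h1 := hpr j hj
  rw [mem_filter, mem_Icc] at h1
  exact ⟨h1.2.1, h1.2.2, h1.1.2⟩

theorem err_of_NoP (hG : PROG) (k : ℕ) (ε : ℝ) (hε : 0 < ε) : ∃ B x₀ : ℕ, 8 ≤ x₀ ∧
    ∀ x d a : ℕ, x₀ ≤ x → 1 ≤ d → (d : ℝ) ≤ (x : ℝ) ^ (1 - ε) → a.Coprime d → NoP k B x d a →
    1 / 2 * (x / (d.totient * Real.log x)) ≤
      |(cnt x d a : ℝ) - (∫ t in (2 : ℝ)..x, 1 / Real.log t) / (Nat.totient d : ℝ)| := by
  obtain ⟨B, x₀, hx₀, h⟩ := cnt_of_NoP hG k ε hε
  refine ⟨B, x₀, hx₀, fun x d a hx hd hdx hcop hno => ?_⟩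
  have h1 := h x d a hx hd hdx hcop hno
  have h2 := li_low x (hx₀.trans hx)
  have hφ : (0 : ℝ) < Nat.totient d := by exact_mod_cast Nat.totient_pos.2 hd
  have h3 : 3 / 4 * (x / (d.totient * Real.log x)) ≤
      (∫ t in (2 : ℝ)..x, 1 / Real.log t) / (Nat.totient d : ℝ) := by
    rw [le_div_iff₀ hφ]
    refine le_trans (le_of_eq ?_) h2
    field_simp
  rw [abs_sub_comm]
  refine le_trans ?_ (le_abs_self _)
  linarith

theorem NoP_mono {k B B' x d a : ℕ} (hB : B ≤ B') (hx : 1 ≤ Real.log x) (h : NoP k B' x d a) :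
    NoP k B x d a := by
  rintro ⟨p, r, hr1, hr2, hp⟩
  exact h ⟨p, r, hr1, hr2.trans (pow_le_pow_right₀ hx hB), hp⟩

theorem log_ge_one {x : ℕ} (hx : 3 ≤ x) : 1 ≤ Real.log x := by
  have hxr : (3 : ℝ) ≤ x := by exact_mod_cast hx
  rw [Real.le_log_iff_exp_le (by linarith)]
  linarith [Real.exp_one_lt_d9]

theorem small_const {x X₁ : ℕ} (U : ℕ) (hx : 3 ≤ x) (hxX : x < X₁) :
    1 ≤ Real.log X₁ ^ U * (1 / Real.log x ^ U) := by
  have hl := log_ge_one hx
  have hx0 : (0 : ℝ) < x := by exact_mod_cast (by omega : 0 < x)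
  have h1 : Real.log x ≤ Real.log X₁ := Real.log_le_log hx0 (by exact_mod_cast hxX.le)
  rw [mul_one_div, le_div_iff₀ (by positivity), one_mul]
  exact pow_le_pow_left₀ (by linarith) h1 U

end Pool.Agent.Y866.PP
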