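import Pool.Agent.Y866.PP.Prim2
import Pool.Agent.Results.MP_a78e8f_nt.ArbitrarySetsFiveNinths

/-!
# Progressions in dense sets of primes, in the classes of almost all moduli up to `N ^ θ`, `θ < 5/9`
-/

set_option autoImplicit false

open Finset

namespace Pool.Agent.Y866.PP

open Pool.Agent.Results.MP_a78e8f_nt.ArbitrarySetsFiveNinths (moduli dev)

theorem ev_log (c s : ℝ) (hc : 0 < c) (hs : 0 < s) : ∃ N₀ : ℕ, ∀ N : ℕ, N₀ ≤ N →
    2 ≤ N ∧ 0 < Real.log N ∧ (N : ℝ) ^ (1 - s) ≤ c * (N / Real.log N) := by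
  have h0 : Filter.Tendsto (fun w : ℕ => (w : ℝ)) Filter.atTop Filter.atTop :=
    tendsto_natCast_atTop_atTop
  have h4 := h0.eventually ((isLittleO_log_rpow_atTop hs).bound hc)
  obtain ⟨N₀, h⟩ := Filter.eventually_atTop.1 (h4.and (Filter.eventually_ge_atTop 3))
  refine ⟨N₀, fun N hN => ?_⟩
  obtain ⟨h1, h3⟩ := h N hN
  have hN1 : (1 : ℝ) < N := by exact_mod_cast (by omega : 1 < N)
  have hN0 : (0 : ℝ) < N := by linarith
  have hl : 0 < Real.log N := Real.log_pos hN1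
  refine ⟨by omega, hl, ?_⟩
  rw [Real.norm_of_nonneg hl.le, Real.norm_of_nonneg (by positivity)] at h1
  rw [mul_div_assoc', le_div_iff₀ hl]
  calc (N : ℝ) ^ (1 - s) * Real.log N ≤ (N : ℝ) ^ (1 - s) * (c * (N : ℝ) ^ s) := by gcongr
    _ = c * ((N : ℝ) ^ (1 - s) * (N : ℝ) ^ s) := by ring
    _ = c * N := by
        rw [← Real.rpow_add hN0]
        congr 1
        rw [sub_add_cancel, Real.rpow_one]

open Classical in
theorem dense (hG : PROG) (k : ℕ) (θ ε ε' δ κ : ℝ) (hθ : θ < 5 / 9) (hε : 0 < ε) (hε' : 0 < ε')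
    (hδ : 0 < δ) (hκ : 0 < κ) :
    ∃ B C N₀ : ℕ, ∀ N : ℕ, N₀ ≤ N → ∀ P : Finset ℕ, (∀ p ∈ P, p.Prime ∧ p ≤ N) →
      δ * (N / Real.log N) ≤ P.card →
      ∃ E : Finset ℤ, E.card ≤ C ∧ ∀ a : ℤ, |a| ≤ N → a ∉ E →
        ∃ D ⊆ moduli N θ ε ε', ∑ d ∈ D, (1 : ℝ) / (Nat.totient d : ℝ) ≤ κ ∧
          ∀ d ∈ moduli N θ ε ε', d ∉ D → ∃ p r : ℕ, 1 ≤ r ∧ (r : ℝ) ≤ Real.log N ^ B ∧
            (p : ℤ) ≡ a [ZMOD d] ∧ ∀ j < k, p + j * (d * r) ∈ P := by
  obtain ⟨η, C₀, hη, hC₀, -, H⟩ :=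
    Pool.Agent.Results.MP_a78e8f_nt.ArbitrarySetsFiveNinths.result θ ε' ε hθ hε' hε
  obtain ⟨κ₁, hκ₁⟩ : ∃ κ₁ : ℝ, κ₁ = min (κ / 2) 1 := ⟨_, rfl⟩
  have hκ₁0 : 0 < κ₁ := by rw [hκ₁]; exact lt_min (by positivity) one_pos
  have hκ₁1 : κ₁ ≤ 1 := by rw [hκ₁]; exact min_le_right _ _
  have hκ₁2 : 2 * κ₁ ≤ κ := by
    have : κ₁ ≤ κ / 2 := by rw [hκ₁]; exact min_le_left _ _
    linarith
  obtain ⟨B, x₀, hprog⟩ := prog_interval hG (max k 1) (4 / 9) (δ / 2) (by norm_num) (by positivity)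
  obtain ⟨N₁, hN₁⟩ := ev_log (κ₁ * δ) η (by positivity) hη
  obtain ⟨N₂, hN₂⟩ := ev_log (δ / 4) (4 / 9) (by positivity) (by norm_num)
  refine ⟨B, ⌈C₀ / (κ₁ ^ 2 * δ)⌉₊, max x₀ (max N₁ N₂), fun N hN P hP hPc => ?_⟩
  have hNx : x₀ ≤ N := (le_max_left _ _).trans hN
  obtain ⟨hN2, hlog, f1⟩ := hN₁ N ((le_max_left _ _).trans ((le_max_right _ _).trans hN))
  obtain ⟨-, -, f2⟩ := hN₂ N ((le_max_right _ _).trans ((le_max_right _ _).trans hN))
  have hN1 : (1 : ℝ) < N := by exact_mod_cast (by omega : 1 < N)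
  have hN0 : (0 : ℝ) < N := by linarith
  have hPpos : (0 : ℝ) < P.card := lt_of_lt_of_le (by positivity) hPc
  have hE := H N hN2 P hP κ₁ hκ₁0 hκ₁1 (by
    refine f1.trans ?_
    rw [mul_assoc]
    gcongr)
  obtain ⟨E, hEd⟩ : ∃ E : Finset ℤ, E = (Icc (-(N : ℤ)) N).filter (fun a : ℤ =>
        κ₁ * P.card < ∑ d ∈ moduli N θ ε ε', |dev P a d|) := ⟨_, rfl⟩
  refine ⟨E, ?_, fun a ha haE => ?_⟩
  · have h1 : (E.card : ℝ) ≤ C₀ / (κ₁ ^ 2 * δ) := by
      have h2 : (E.card : ℝ) ≤ C₀ * (N / (κ₁ ^ 2 * P.card * Real.log N)) := by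
        rw [hEd]
        convert hE using 3
      refine h2.trans ?_
      rw [mul_div_assoc', div_le_div_iff₀ (by positivity) (by positivity)]
      have h3 : δ * N ≤ P.card * Real.log N := by
        rw [mul_div_assoc', div_le_iff₀ hlog] at hPc
        exact hPc
      calc C₀ * N * (κ₁ ^ 2 * δ) = C₀ * κ₁ ^ 2 * (δ * N) := by ring
        _ ≤ C₀ * κ₁ ^ 2 * (P.card * Real.log N) := by gcongr
        _ = C₀ * (κ₁ ^ 2 * P.card * Real.log N) := by ring
    have h4 := h1.trans (Nat.le_ceil _)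
    exact_mod_cast h4
  have hsum : ∑ d ∈ moduli N θ ε ε', |dev P a d| ≤ κ₁ * P.card := by
    by_contra hcon
    apply haE
    rw [hEd, mem_filter, mem_Icc]
    exact ⟨abs_le.1 ha, not_le.1 hcon⟩
  have hmod : ∀ d ∈ moduli N θ ε ε', 1 ≤ d ∧ (d : ℝ) ≤ (N : ℝ) ^ (5 / 9 : ℝ) := by
    intro d hd
    unfold moduli at hd
    rw [mem_filter, mem_Icc] at hd
    refine ⟨hd.1.1, ?_⟩
    calc (d : ℝ) ≤ (⌊(N : ℝ) ^ θ⌋₊ : ℝ) := by exact_mod_cast hd.1.2
      _ ≤ (N : ℝ) ^ θ := Nat.floor_le (by positivity)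
      _ ≤ (N : ℝ) ^ (5 / 9 : ℝ) := Real.rpow_le_rpow_of_exponent_le hN1.le hθ.le
  have hφ : ∀ d ∈ moduli N θ ε ε', (0 : ℝ) < Nat.totient d := fun d hd => by
    exact_mod_cast Nat.totient_pos.2 (hmod d hd).1
  refine ⟨(moduli N θ ε ε').filter (fun d => (P.card : ℝ) / (2 * Nat.totient d) < |dev P a d|),
    filter_subset _ _, ?_, fun d hd hdD => ?_⟩
  · have h1 : ∀ d ∈ (moduli N θ ε ε').filter
        (fun d => (P.card : ℝ) / (2 * Nat.totient d) < |dev P a d|),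
        (1 : ℝ) / (Nat.totient d : ℝ) ≤ 2 / P.card * |dev P a d| := by
      intro d hd
      rw [mem_filter] at hd
      have h2 := hφ d hd.1
      calc (1 : ℝ) / (Nat.totient d : ℝ) = 2 / P.card * ((P.card : ℝ) / (2 * Nat.totient d)) := by
            field_simp
        _ ≤ 2 / P.card * |dev P a d| := by gcongr; exact hd.2.le
    refine (sum_le_sum h1).trans ?_
    rw [← mul_sum]
    have h2 : ∑ d ∈ (moduli N θ ε ε').filter
        (fun d => (P.card : ℝ) / (2 * Nat.totient d) < |dev P a d|), |dev P a d| ≤ κ₁ * P.card :=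
      (sum_le_sum_of_subset_of_nonneg (filter_subset _ _) fun _ _ _ => abs_nonneg _).trans hsum
    calc 2 / (P.card : ℝ) * ∑ d ∈ (moduli N θ ε ε').filter
            (fun d => (P.card : ℝ) / (2 * Nat.totient d) < |dev P a d|), |dev P a d|
          ≤ 2 / P.card * (κ₁ * P.card) := by gcongr
      _ = 2 * κ₁ := by field_simp
      _ ≤ κ := hκ₁2
  · have hdφ := hφ d hd
    obtain ⟨hd1, hdN⟩ := hmod d hd
    have hd0 : (0 : ℝ) < d := by exact_mod_cast hd1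
    have h1 : |dev P a d| ≤ (P.card : ℝ) / (2 * Nat.totient d) := by
      by_contra hcon
      exact hdD (mem_filter.2 ⟨hd, not_le.1 hcon⟩)
    obtain ⟨Q, hQ⟩ : ∃ Q : Finset ℕ, Q = P.filter (fun p : ℕ => (p : ℤ) ≡ a [ZMOD d]) := ⟨_, rfl⟩
    have hQc : (P.card : ℝ) / (2 * Nat.totient d) ≤ Q.card := by
      have h2 : dev P a d = Q.card - (P.card : ℝ) / (Nat.totient d : ℝ) := by
        unfold dev
        rw [hQ]
      rw [h2] at h1
      have h3 := (abs_le.1 h1).1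
      have h4 : (P.card : ℝ) / (Nat.totient d : ℝ) = 2 * ((P.card : ℝ) / (2 * Nat.totient d)) := by
        field_simp
      rw [h4] at h3
      linarith
    have hdφ2 : (Nat.totient d : ℝ) ≤ (N : ℝ) ^ (5 / 9 : ℝ) := by
      refine le_trans ?_ hdN
      exact_mod_cast Nat.totient_le d
    have hQ1 : (1 : ℝ) < Q.card := by
      refine lt_of_lt_of_le ?_ hQc
      rw [lt_div_iff₀ (by positivity), one_mul]
      have h2 : (N : ℝ) ^ (1 - 4 / 9 : ℝ) = (N : ℝ) ^ (5 / 9 : ℝ) := by norm_num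
      rw [h2] at f2
      have h3 : 0 < δ * (N / Real.log N) := by positivity
      calc 2 * (Nat.totient d : ℝ) ≤ 2 * (N : ℝ) ^ (5 / 9 : ℝ) := by gcongr
        _ ≤ 2 * (δ / 4 * (N / Real.log N)) := by gcongr
        _ < δ * (N / Real.log N) := by linarith
        _ ≤ P.card := hPc
    have hcop : IsCoprime a (d : ℤ) := by
      by_contra hnc
      rw [Int.isCoprime_iff_gcd_eq_one] at hnc
      obtain ⟨l, hl, hla⟩ := Nat.exists_prime_and_dvd hnc
      have hla1 : (l : ℤ) ∣ a := (Int.natCast_dvd_natCast.2 hla).trans (Int.gcd_dvd_left _ _)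
      have hla2 : (l : ℤ) ∣ d := (Int.natCast_dvd_natCast.2 hla).trans (Int.gcd_dvd_right _ _)
      have h2 : Q ⊆ {l} := by
        intro p hp
        rw [hQ, mem_filter] at hp
        rw [mem_singleton]
        have h3 : (l : ℤ) ∣ p := by
          have h4 := hp.2.symm.dvd
          have h5 : (l : ℤ) ∣ (p : ℤ) - a := hla2.trans h4
          have h6 := dvd_add h5 hla1
          rwa [sub_add_cancel] at h6
        have h4 : l ∣ p := by exact_mod_cast h3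
        exact ((Nat.prime_dvd_prime_iff_eq hl (hP p hp.1).1).1 h4).symm
      have h3 := card_le_card h2
      rw [card_singleton] at h3
      have h4 : (Q.card : ℝ) ≤ 1 := by exact_mod_cast h3
      linarith
    obtain ⟨p, r, hr1, hr2, hpr⟩ := hprog 0 N d (by omega) hd1 (by
      rw [zero_add]
      calc (d : ℝ) * (N : ℝ) ^ (4 / 9 : ℝ) ≤ (N : ℝ) ^ (5 / 9 : ℝ) * (N : ℝ) ^ (4 / 9 : ℝ) := by gcongr
        _ = N := by rw [← Real.rpow_add hN0]; norm_num) a hcop Q (by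
      intro p hp
      rw [hQ, mem_filter] at hp
      exact ⟨(hP p hp.1).1, (hP p hp.1).1.pos, by rw [zero_add]; exact (hP p hp.1).2, hp.2⟩) (by
      rw [zero_add]
      refine le_trans ?_ hQc
      calc δ / 2 * ((N : ℝ) / (Nat.totient d * Real.log N))
          = δ * (N / Real.log N) / (2 * Nat.totient d) := by field_simp
        _ ≤ P.card / (2 * Nat.totient d) := by gcongr)
    rw [zero_add] at hr2
    have hmem : ∀ j < max k 1, p + j * (d * r) ∈ P ∧ ((p + j * (d * r) : ℕ) : ℤ) ≡ a [ZMOD d] := by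
      intro j hj
      have h2 := hpr j hj
      rw [hQ, mem_filter] at h2
      exact h2
    refine ⟨p, r, hr1, hr2, ?_, fun j hj => (hmem j (lt_of_lt_of_le hj (le_max_left _ _))).1⟩
    have h2 := (hmem 0 (by omega)).2
    simpa using h2

end Pool.Agent.Y866.PP
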