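import Pool.Agent.Y866.PP.Prim2
import Pool.Agent.H692R2.USS.T1

/-!
# Progressions of primes in a positive proportion of the classes of every modulus
-/

set_option autoImplicit false

open Finset

namespace Pool.Agent.Y866.PP


theorem ev_sq (c : ℝ) (hc : 0 < c) : ∃ x₀ : ℕ, ∀ x : ℕ, x₀ ≤ x →
    2 ≤ Real.log x ∧ 2 * Real.log x ≤ c * (x / Real.log x) := by
  have h0 : Filter.Tendsto (fun w : ℕ => (w : ℝ)) Filter.atTop Filter.atTop :=
    tendsto_natCast_atTop_atTop
  have h4 := h0.eventually ((Real.isLittleO_pow_log_id_atTop (n := 2)).bound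
    (show (0 : ℝ) < c / 2 by positivity))
  have h5 := (Real.tendsto_log_atTop.comp h0).eventually_ge_atTop 2
  obtain ⟨x₀, h⟩ := Filter.eventually_atTop.1 (h4.and h5)
  refine ⟨x₀, fun x hx => ?_⟩
  obtain ⟨h1, h2⟩ := h x hx
  simp only [Function.comp] at h2
  refine ⟨h2, ?_⟩
  rw [Real.norm_of_nonneg (by positivity), id, Real.norm_of_nonneg (Nat.cast_nonneg x)] at h1
  rw [mul_div_assoc', le_div_iff₀ (by linarith)]
  nlinarith

open Classical in
/-- the classes with a progression -/
noncomputable def goodC (k B x q : ℕ) (P : Finset ℕ) : Finset ℕ :=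
  (range q).filter (fun a => a.Coprime q ∧ ∃ p d : ℕ, 1 ≤ d ∧ (d : ℝ) ≤ Real.log x ^ B ∧
    ∀ j < k, p + j * (q * d) ∈ P ∧ p + j * (q * d) ≡ a [MOD q])

theorem every (hG : PROG) (k : ℕ) (ε δ : ℝ) (hε : 0 < ε) (hδ : 0 < δ) :
    ∃ c : ℝ, 0 < c ∧ ∃ B x₀ : ℕ, ∀ x q : ℕ, x₀ ≤ x → 1 ≤ q → (q : ℝ) * (x : ℝ) ^ ε ≤ x →
      ∀ P : Finset ℕ, (∀ p ∈ P, p.Prime ∧ p ≤ x) → δ * (x / Real.log x) ≤ P.card →
      c * q.totient ≤ (goodC k B x q P).card := by
  classical
  obtain ⟨B, x₁, hprog⟩ := prog_interval hG k ε (δ / 4) hε (by positivity)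
  obtain ⟨x₂, hx₂⟩ := ev_sq (δ / 4) (by positivity)
  refine ⟨δ * ε / 88, by positivity, B, max x₁ (max x₂ 2), fun x q hx hq hqx P hP hPc => ?_⟩
  have hxx₁ : x₁ ≤ x := (le_max_left _ _).trans hx
  obtain ⟨f1, f2⟩ := hx₂ x ((le_max_left _ _).trans ((le_max_right _ _).trans hx))
  have hx2 : 2 ≤ x := (le_max_right _ _).trans ((le_max_right _ _).trans hx)
  have hx0 : (0 : ℝ) < x := by exact_mod_cast (by omega : 0 < x)
  have hx1 : (1 : ℝ) ≤ x := by exact_mod_cast (by omega : 1 ≤ x)
  have hq0 : (0 : ℝ) < q := by exact_mod_cast hq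
  have hφ : (0 : ℝ) < q.totient := by exact_mod_cast Nat.totient_pos.2 hq
  have hlx : 0 < Real.log x := by linarith
  have hqlex : (q : ℝ) ≤ x := by
    have h1 : (1 : ℝ) ≤ (x : ℝ) ^ ε := Real.one_le_rpow hx1 hε.le
    nlinarith
  -- the sets of the classes
  obtain ⟨Q, hQ⟩ : ∃ Q : ℕ → Finset ℕ, Q = fun a => P.filter (fun p => p ≡ a [MOD q]) := ⟨_, rfl⟩
  obtain ⟨Rc, hRc⟩ : ∃ Rc : Finset ℕ, Rc = (range q).filter (fun a => a.Coprime q) := ⟨_, rfl⟩
  have hRcard : Rc.card = q.totient := by
    rw [hRc]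
    unfold Nat.totient
    congr 1
    ext a
    simp only [mem_filter, Nat.coprime_comm]
  obtain ⟨G, hG⟩ : ∃ G : Finset ℕ, G = Rc.filter (fun a =>
      δ / 4 * (x / (q.totient * Real.log x)) ≤ ((Q a).card : ℝ)) := ⟨_, rfl⟩
  have hGsub : G ⊆ goodC k B x q P := by
    intro a ha
    rw [hG, mem_filter, hRc, mem_filter] at ha
    obtain ⟨⟨ha1, ha2⟩, ha3⟩ := ha
    obtain ⟨p, d, hd1, hd2, hpd⟩ := hprog 0 x q (by omega) hq (by rw [zero_add]; exact hqx) (a : ℤ)
      (Nat.isCoprime_iff_coprime.2 ha2) (Q a) (by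
      intro p hp
      rw [hQ, mem_filter] at hp
      exact ⟨(hP p hp.1).1, (hP p hp.1).1.pos, by rw [zero_add]; exact (hP p hp.1).2,
        (Int.natCast_modEq_iff).2 hp.2⟩) (by rw [zero_add]; exact ha3)
    rw [zero_add] at hd2
    unfold goodC
    rw [mem_filter]
    refine ⟨ha1, ha2, p, d, hd1, hd2, fun j hj => ?_⟩
    have h1 := hpd j hj
    rw [hQ, mem_filter] at h1
    exact h1
  -- the upper bound for a class
  have hup : ∀ a ∈ Rc, ((Q a).card : ℝ) ≤ 44 / ε * (x / (q.totient * Real.log x)) := by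
    intro a ha
    rw [hRc, mem_filter, mem_range] at ha
    obtain ⟨N, hN⟩ : ∃ N : ℕ, N = x / q + 1 := ⟨_, rfl⟩
    have hxN : (x : ℝ) / q < N := by
      rw [div_lt_iff₀ hq0]
      have h1 := Nat.lt_mul_div_succ x (show 0 < q by omega)
      have h2 : x < N * q := by rw [hN, mul_comm]; exact h1
      exact_mod_cast h2
    have hxq : (x : ℝ) ^ ε ≤ x / q := by rw [le_div_iff₀ hq0, mul_comm]; exact hqx
    have hN2 : 2 ≤ N := by
      have h1 : q ≤ x := by exact_mod_cast hqlex
      have h2 : 1 ≤ x / q := (Nat.one_le_div_iff (by omega)).2 h1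
      omega
    have hNle : (N : ℝ) ≤ 2 * (x / q) := by
      have h1 : ((x / q : ℕ) : ℝ) ≤ (x : ℝ) / q := Nat.cast_div_le
      have h2 : (N : ℝ) = ((x / q : ℕ) : ℝ) + 1 := by rw [hN]; push_cast; ring
      have h3 : (1 : ℝ) ≤ x / q := by rw [le_div_iff₀ hq0, one_mul]; exact hqlex
      rw [h2]
      linarith
    have hlN : ε * Real.log x ≤ Real.log N := by
      rw [← Real.log_rpow hx0]
      exact Real.log_le_log (by positivity) (hxq.trans hxN.le)
    have h1 := Pool.Agent.H692R2.USS.t1_brun_titchmarsh a q N hN2 hq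
    have h2 : (Q a).card ≤ ((range N).filter (fun k => (a + k * q).Prime)).card := by
      apply card_le_card_of_injOn (fun p => p / q)
      · intro p hp
        rw [mem_coe, hQ, mem_filter] at hp
        rw [mem_coe, mem_filter, mem_range]
        refine ⟨?_, ?_⟩
        · rw [hN]
          exact Nat.lt_succ_of_le (Nat.div_le_div_right (hP p hp.1).2)
        · have h3 : p % q = a := by
            have h4 : p % q = a % q := hp.2
            rw [h4, Nat.mod_eq_of_lt ha.1]
          have h5 : a + p / q * q = p := by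
            rw [← h3, mul_comm]; exact Nat.mod_add_div p q
          simp only
          rw [h5]
          exact (hP p hp.1).1
      · intro p hp p' hp' hpp
        rw [mem_coe, hQ, mem_filter] at hp hp'
        simp only at hpp
        have h3 : p % q = p' % q := hp.2.trans hp'.2.symm
        rw [← Nat.mod_add_div p q, ← Nat.mod_add_div p' q, h3, hpp]
    have h3 : ((Q a).card : ℝ) ≤ (((range N).filter (fun k => (a + k * q).Prime)).card : ℝ) := by
      exact_mod_cast h2
    refine (h3.trans h1).trans ?_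
    have h4 : (N : ℝ) / Real.log N ≤ 2 * (x / q) / (ε * Real.log x) :=
      div_le_div₀ (by positivity) hNle (by positivity) hlN
    calc 22 * ((q : ℝ) / q.totient) * N / Real.log N = 22 * ((q : ℝ) / q.totient) * (N / Real.log N) := by
          ring
      _ ≤ 22 * ((q : ℝ) / q.totient) * (2 * (x / q) / (ε * Real.log x)) := by gcongr
      _ = 44 / ε * (x / (q.totient * Real.log x)) := by field_simp; ring
  -- the decomposition
  have hdec : (P.card : ℝ) ≤ 2 * Real.log x + ∑ a ∈ Rc, ((Q a).card : ℝ) := by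
    have h1 : P ⊆ q.primeFactors ∪ Rc.biUnion Q := by
      intro p hp
      rw [mem_union, mem_biUnion]
      by_cases h2 : p ∣ q
      · exact Or.inl (Nat.mem_primeFactors.2 ⟨(hP p hp).1, h2, by omega⟩)
      · refine Or.inr ⟨p % q, ?_, ?_⟩
        · rw [hRc, mem_filter, mem_range]
          refine ⟨Nat.mod_lt _ (by omega), ?_⟩
          have h3 : p.Coprime q := ((Nat.Prime.coprime_iff_not_dvd (hP p hp).1).2 h2)
          unfold Nat.Coprime at h3 ⊢
          rw [← h3, ← Nat.gcd_rec, Nat.gcd_comm]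
        · rw [hQ, mem_filter]
          exact ⟨hp, (Nat.mod_modEq p q).symm⟩
    have h2 : P.card ≤ q.primeFactors.card + ∑ a ∈ Rc, (Q a).card :=
      (card_le_card h1).trans ((card_union_le _ _).trans (Nat.add_le_add_left card_biUnion_le _))
    have h3 : (q.primeFactors.card : ℝ) ≤ 2 * Real.log x := by
      have h4 : 2 ^ q.primeFactors.card ≤ q := by
        calc 2 ^ q.primeFactors.card = ∏ p ∈ q.primeFactors, 2 := by rw [prod_const]
          _ ≤ ∏ p ∈ q.primeFactors, p := prod_le_prod' fun p hp =>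
              (Nat.prime_of_mem_primeFactors hp).two_le
          _ ≤ q := Nat.le_of_dvd (by omega) (Nat.prod_primeFactors_dvd q)
      have h5 : (q.primeFactors.card : ℝ) * Real.log 2 ≤ Real.log q := by
        rw [← Real.log_pow]
        apply Real.log_le_log (by positivity)
        exact_mod_cast h4
      have h6 := Real.log_two_gt_d9
      have h7 : Real.log q ≤ Real.log x := Real.log_le_log hq0 hqlex
      have h8 : (0 : ℝ) ≤ q.primeFactors.card := Nat.cast_nonneg _
      nlinarith
    calc (P.card : ℝ) ≤ ((q.primeFactors.card + ∑ a ∈ Rc, (Q a).card : ℕ) : ℝ) := by exact_mod_cast h2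
      _ = q.primeFactors.card + ∑ a ∈ Rc, ((Q a).card : ℝ) := by push_cast; rfl
      _ ≤ _ := by linarith
  have hsplit : ∑ a ∈ Rc, ((Q a).card : ℝ) ≤ δ / 4 * (x / Real.log x) +
      G.card * (44 / ε * (x / (q.totient * Real.log x))) := by
    rw [← sum_filter_add_sum_filter_not Rc (fun a =>
      δ / 4 * (x / (q.totient * Real.log x)) ≤ ((Q a).card : ℝ)), add_comm]
    apply add_le_add
    · calc ∑ a ∈ Rc.filter (fun a => ¬ δ / 4 * (x / (q.totient * Real.log x)) ≤ ((Q a).card : ℝ)),
            ((Q a).card : ℝ)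
          ≤ ∑ a ∈ Rc.filter (fun a => ¬ δ / 4 * (x / (q.totient * Real.log x)) ≤ ((Q a).card : ℝ)),
            δ / 4 * (x / (q.totient * Real.log x)) := by
            apply sum_le_sum
            intro a ha
            exact (not_le.1 (mem_filter.1 ha).2).le
        _ ≤ ∑ a ∈ Rc, δ / 4 * (x / (q.totient * Real.log x)) :=
            sum_le_sum_of_subset_of_nonneg (filter_subset _ _) fun _ _ _ => by positivity
        _ = δ / 4 * (x / Real.log x) := by
            rw [sum_const, hRcard, nsmul_eq_mul]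
            field_simp
    · rw [← hG]
      calc ∑ a ∈ G, ((Q a).card : ℝ) ≤ ∑ a ∈ G, 44 / ε * (x / (q.totient * Real.log x)) := by
            apply sum_le_sum
            intro a ha
            apply hup a
            rw [hG] at ha
            exact (mem_filter.1 ha).1
        _ = _ := by rw [sum_const, nsmul_eq_mul]
  have hfin : δ / 2 * (x / Real.log x) ≤ G.card * (44 / ε * (x / (q.totient * Real.log x))) := by
    linarith
  have h1 : (G.card : ℝ) ≤ (goodC k B x q P).card := by exact_mod_cast card_le_card hGsub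
  refine le_trans ?_ h1
  have h2 : (G.card : ℝ) * (44 / ε * (x / (q.totient * Real.log x))) =
      (G.card * (44 / (ε * q.totient))) * (x / Real.log x) := by field_simp
  rw [h2] at hfin
  have h3 := le_of_mul_le_mul_right hfin (by positivity)
  rw [mul_div_assoc', le_div_iff₀ (by positivity)] at h3
  linarith

end Pool.Agent.Y866.PP
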