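import Pool.Agent.Y866.PP.Cnt
import Pool.Agent.Results.MP_00e23e_nt.MaxInsideFiveNinths

/-!
# Progressions of primes in the residue classes to large moduli, few pairs
-/

set_option autoImplicit false

open Finset

namespace Pool.Agent.Y866.PP

open Pool.Agent.Results.MP_00e23e_nt.MaxInsideFiveNinths (mods)

/-- **(3)** the smooth and the factorable moduli up to `x ^ θ`, `θ < 5/9`, all the pairs from a set of at
most `x ^ η` residues outside few pairs -/
theorem five_ninths (hG : PROG) (θ δ : ℝ) (h1 : 1 / 2 ≤ θ) (h2 : θ < 5 / 9) (h3 : 0 < δ) :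
    ∃ η : ℝ, 0 < η ∧ ∀ k U : ℕ, ∃ (B : ℕ) (C : ℝ), 0 < C ∧ ∀ x : ℕ, 3 ≤ x → ∃ Z : Finset ℕ,
    ∑ d ∈ Z, 1 / (Nat.totient d : ℝ) ≤ C / Real.log x ^ U ∧
    ∀ A : Finset ℕ, A ⊆ Icc 1 x → (A.card : ℝ) ≤ (x : ℝ) ^ η → ∃ X : ℕ → Finset ℕ,
    (∀ d, X d ⊆ A) ∧
    ∑ d ∈ Icc 1 ⌊(x : ℝ) ^ θ⌋₊, ((X d).card : ℝ) / (Nat.totient d : ℝ) ≤ C * Real.log x ^ B ∧
    ∀ d ∈ mods x θ δ, d ∉ Z → ∀ a ∈ A, a ∉ X d → Nat.Coprime a d → ¬ NoP k B x d a := by
  classical
  obtain ⟨-, η, hη, H⟩ := Pool.Agent.Results.MP_00e23e_nt.MaxInsideFiveNinths.result θ δ h1 h2 h3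
  refine ⟨η, hη, fun k U => ?_⟩
  obtain ⟨B₀, x₀, hx₀, h⟩ := err_of_NoP hG k (4 / 9) (by norm_num)
  obtain ⟨B₁, C₁, hC₁, H1⟩ := H (U + 2)
  obtain ⟨x₂, hx₂⟩ : ∃ x₂ : ℕ, ∀ x : ℕ, x₂ ≤ x → 2 * C₁ < Real.log x := by
    have h1 : Filter.Tendsto (fun X : ℕ => Real.log X) Filter.atTop Filter.atTop :=
      Real.tendsto_log_atTop.comp tendsto_natCast_atTop_atTop
    exact Filter.eventually_atTop.1 (h1.eventually_gt_atTop (2 * C₁))
  obtain ⟨X₁, hX₁⟩ : ∃ X₁ : ℕ, X₁ = max x₀ (max x₂ 3) := ⟨_, rfl⟩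
  have hX₁3 : 3 ≤ X₁ := by rw [hX₁]; exact (le_max_right _ _).trans (le_max_right _ _)
  obtain ⟨B, hB⟩ : ∃ B : ℕ, B = max B₀ B₁ := ⟨_, rfl⟩
  have hBB₀ : B₀ ≤ B := by rw [hB]; exact le_max_left _ _
  have hBB₁ : B₁ ≤ B := by rw [hB]; exact le_max_right _ _
  have hlX₁ : 1 ≤ Real.log X₁ := log_ge_one hX₁3
  refine ⟨B, C₁ + X₁ * Real.log X₁ ^ U, by positivity, fun x hx => ?_⟩
  have hxr : (3 : ℝ) ≤ x := by exact_mod_cast hx
  have hx0 : (0 : ℝ) < x := by linarith
  have hlog1 := log_ge_one hx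
  have hlog0 : 0 < Real.log x := by linarith
  have hXU : 0 ≤ (X₁ : ℝ) * Real.log X₁ ^ U := by positivity
  rcases le_or_gt X₁ x with hxX | hxX
  · have hxx₀ : x₀ ≤ x := by
      refine le_trans ?_ hxX
      rw [hX₁]; exact le_max_left _ _
    have hxx₂ : x₂ ≤ x := by
      refine le_trans ?_ hxX
      rw [hX₁]; exact (le_max_left _ _).trans (le_max_right _ _)
    have h4 := hx₂ x hxx₂
    obtain ⟨Z, hZ1, hZ2⟩ := H1 x hx
    refine ⟨Z, hZ1.trans ?_, fun A hA hAc => ?_⟩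
    · have h5 : C₁ / Real.log x ^ (U + 2) ≤ C₁ / Real.log x ^ U :=
        div_le_div_of_nonneg_left hC₁.le (by positivity) (pow_le_pow_right₀ hlog1 (by omega))
      refine h5.trans ?_
      gcongr
      linarith
    · obtain ⟨X, hXA, hX1, hX2, -⟩ := hZ2 A hA hAc
      refine ⟨X, hXA, hX1.trans ?_, fun d hd hdZ a ha haX hcop hno => ?_⟩
      · have h5 : Real.log x ^ B₁ ≤ Real.log x ^ B := pow_le_pow_right₀ hlog1 hBB₁
        have h6 : 0 < Real.log x ^ B₁ := by positivity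
        nlinarith
      · have h5 := hX2 d hd hdZ a ha haX hcop
        have hd' := (Pool.Agent.Results.MP_00e23e_nt.MaxInsideFiveNinths.mem_mods.1 hd).1
        rw [mem_Icc] at hd'
        have hφ : (0 : ℝ) < Nat.totient d := by exact_mod_cast Nat.totient_pos.2 hd'.1
        have hdx : (d : ℝ) ≤ (x : ℝ) ^ (1 - 4 / 9 : ℝ) := by
          have h6 : (d : ℝ) ≤ (⌊(x : ℝ) ^ θ⌋₊ : ℕ) := by exact_mod_cast hd'.2
          refine h6.trans ((Nat.floor_le (by positivity)).trans ?_)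
          apply Real.rpow_le_rpow_of_exponent_le (by linarith)
          linarith
        have h7 := h x d a hxx₀ hd'.1 hdx hcop (NoP_mono hBB₀ hlog1 hno)
        have h8 : Pool.Agent.Results.MP_00e23e_nt.MaxInsideFiveNinths.E x d a =
            (cnt x d a : ℝ) - (∫ t in (2 : ℝ)..x, 1 / Real.log t) / (Nat.totient d : ℝ) := rfl
        rw [h8] at h5
        have h9 := h7.trans h5
        have h10 : C₁ * (x / (Nat.totient d * Real.log x ^ (U + 2))) <
            1 / 2 * (x / (d.totient * Real.log x)) := by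
          have h11 : C₁ * (x / (Nat.totient d * Real.log x ^ (U + 2))) =
              (C₁ / Real.log x ^ (U + 1)) * (x / (d.totient * Real.log x)) := by
            rw [pow_succ]
            field_simp
          rw [h11]
          apply mul_lt_mul_of_pos_right _ (by positivity)
          rw [div_lt_iff₀ (by positivity)]
          have h12 : Real.log x ≤ Real.log x ^ (U + 1) := by
            calc Real.log x = Real.log x ^ 1 := (pow_one _).symm
              _ ≤ _ := pow_le_pow_right₀ hlog1 (by omega)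
          linarith
        linarith
  · have hsm := small_const U hx hxX
    refine ⟨Icc 1 X₁, ?_, fun A hA _ => ⟨fun _ => ∅, fun _ => empty_subset _, ?_, ?_⟩⟩
    · have h5 : ∀ d ∈ Icc 1 X₁, 1 / (Nat.totient d : ℝ) ≤ 1 := by
        intro d hd
        rw [mem_Icc] at hd
        have hφ : (1 : ℝ) ≤ Nat.totient d := by exact_mod_cast Nat.totient_pos.2 (by omega : 0 < d)
        rw [div_le_one (by linarith)]
        exact hφ
      refine (sum_le_sum h5).trans ?_
      rw [sum_const, nsmul_eq_mul, mul_one, Nat.card_Icc, Nat.add_sub_cancel]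
      calc (X₁ : ℝ) = X₁ * 1 := by ring
        _ ≤ X₁ * (Real.log X₁ ^ U * (1 / Real.log x ^ U)) := by gcongr
        _ = X₁ * Real.log X₁ ^ U / Real.log x ^ U := by ring
        _ ≤ (C₁ + X₁ * Real.log X₁ ^ U) / Real.log x ^ U := by
            gcongr
            linarith
    · simp only [card_empty, Nat.cast_zero, zero_div, sum_const_zero]
      positivity
    · intro d hd hdZ
      exfalso
      apply hdZ
      have hd' := (Pool.Agent.Results.MP_00e23e_nt.MaxInsideFiveNinths.mem_mods.1 hd).1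
      rw [mem_Icc] at hd' ⊢
      refine ⟨hd'.1, ?_⟩
      have h6 : (d : ℝ) ≤ (⌊(x : ℝ) ^ θ⌋₊ : ℕ) := by exact_mod_cast hd'.2
      have h7 : (d : ℝ) ≤ x := by
        refine h6.trans ((Nat.floor_le (by positivity)).trans ?_)
        calc (x : ℝ) ^ θ ≤ (x : ℝ) ^ (1 : ℝ) :=
              Real.rpow_le_rpow_of_exponent_le (by linarith) (by linarith)
          _ = x := Real.rpow_one _
      have h8 : d ≤ x := by exact_mod_cast h7
      omega

end Pool.Agent.Y866.PP
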