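import Pool.Agent.Y866.PP.FiveNinths

/-!
# Progressions of primes below `d ^ (9/5 + ε)` in the classes of fixed residues to smooth moduli `d`
-/

set_option autoImplicit false
set_option maxHeartbeats 4000000

open Finset

namespace Pool.Agent.Y866.PP

open Pool.Agent.Results.MP_00e23e_nt.MaxInsideFiveNinths (mods)

theorem exists_theta (ε : ℝ) (hε : 0 < ε) : ∃ θ δ : ℝ, 1 / 2 ≤ θ ∧ θ < 5 / 9 ∧ 0 < δ ∧
    1 < θ * (9 / 5 + ε) ∧ 0 < 5 - 9 * θ - 2 * δ := by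
  have hl : 0 < 9 / 5 + ε := by linarith
  have h1 : 1 / (9 / 5 + ε) < 5 / 9 := by
    rw [div_lt_div_iff₀ hl (by norm_num)]
    linarith
  have hθ : max (1 / 2 : ℝ) ((1 / (9 / 5 + ε) + 5 / 9) / 2) < 5 / 9 :=
    max_lt (by norm_num) (by linarith)
  refine ⟨max (1 / 2) ((1 / (9 / 5 + ε) + 5 / 9) / 2),
    (5 - 9 * max (1 / 2) ((1 / (9 / 5 + ε) + 5 / 9) / 2)) / 4, le_max_left _ _, hθ, by linarith, ?_,
    by linarith⟩
  have h2 : (1 / (9 / 5 + ε) + 5 / 9) / 2 * (9 / 5 + ε) ≤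
      max (1 / 2) ((1 / (9 / 5 + ε) + 5 / 9) / 2) * (9 / 5 + ε) :=
    mul_le_mul_of_nonneg_right (le_max_right _ _) hl.le
  refine lt_of_lt_of_le ?_ h2
  have h3 : 1 / (9 / 5 + ε) * (9 / 5 + ε) = 1 := by field_simp
  nlinarith

/-- the sizes -/
theorem ev_fixed (θ lam : ℝ) (hlam : 1 ≤ lam) (hθ : 0 < θ) (h : 1 < θ * lam) : ∃ D₀ : ℕ, ∀ D : ℕ, D₀ ≤ D →
    3 ≤ D ∧ (D : ℝ) ≤ (⌊(D : ℝ) ^ lam⌋₊ : ℕ) ∧
      (2 * D : ℝ) ≤ ((⌊(D : ℝ) ^ lam⌋₊ : ℕ) : ℝ) ^ θ := by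
  have h0 : Filter.Tendsto (fun w : ℕ => (w : ℝ)) Filter.atTop Filter.atTop :=
    tendsto_natCast_atTop_atTop
  have hpow : Filter.Tendsto (fun w : ℝ => w ^ (θ * lam - 1)) Filter.atTop Filter.atTop :=
    tendsto_rpow_atTop (by linarith)
  obtain ⟨D₀, hD⟩ := Filter.eventually_atTop.1 ((h0.eventually (hpow.eventually_ge_atTop (2 * 2 ^ θ))).and
    (Filter.eventually_ge_atTop 3))
  refine ⟨D₀, fun D hDD => ?_⟩
  obtain ⟨h1, h3⟩ := hD D hDD
  have hDr : (3 : ℝ) ≤ D := by exact_mod_cast h3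
  have hD0 : (0 : ℝ) < D := by linarith
  have hDl : (D : ℝ) ≤ (D : ℝ) ^ lam := by
    calc (D : ℝ) = (D : ℝ) ^ (1 : ℝ) := (Real.rpow_one _).symm
      _ ≤ _ := Real.rpow_le_rpow_of_exponent_le (by linarith) hlam
  have hfl : (D : ℝ) ^ lam / 2 ≤ (⌊(D : ℝ) ^ lam⌋₊ : ℕ) := by
    have := Nat.lt_floor_add_one ((D : ℝ) ^ lam)
    linarith
  refine ⟨h3, ?_, ?_⟩
  · have : D ≤ ⌊(D : ℝ) ^ lam⌋₊ := Nat.le_floor hDl
    exact_mod_cast this
  · have h4 : ((D : ℝ) ^ lam / 2) ^ θ ≤ ((⌊(D : ℝ) ^ lam⌋₊ : ℕ) : ℝ) ^ θ :=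
      Real.rpow_le_rpow (by positivity) hfl hθ.le
    refine le_trans ?_ h4
    rw [Real.div_rpow (by positivity) (by norm_num), ← Real.rpow_mul hD0.le, le_div_iff₀ (by positivity)]
    have h5 : (D : ℝ) ^ (lam * θ) = D * (D : ℝ) ^ (θ * lam - 1) := by
      rw [mul_comm lam θ]
      conv_rhs => rw [← Real.rpow_one (D : ℝ)]
      rw [Real.rpow_one, ← Real.rpow_one_add' hD0.le (by linarith)]
      congr 1
      ring
    rw [h5]
    calc 2 * (D : ℝ) * 2 ^ θ = D * (2 * 2 ^ θ) := by ring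
      _ ≤ _ := by gcongr

theorem fixed_residues (hG : PROG) (ε : ℝ) (hε : 0 < ε) : ∃ η : ℝ, 0 < η ∧ ∀ k U : ℕ,
    ∃ (B : ℕ) (C : ℝ), ∀ D : ℕ, 3 ≤ D → ∃ Z : Finset ℕ, (Z.card : ℝ) ≤ C * (D / Real.log D ^ U) ∧
      ∀ A : Finset ℕ, (∀ a ∈ A, 1 ≤ a ∧ (a : ℝ) ≤ (D : ℝ) ^ (9 / 5 : ℝ)) →
      (A.card : ℝ) ≤ (D : ℝ) ^ η → ∃ X : ℕ → Finset ℕ, (∀ d, X d ⊆ A) ∧
        ∑ d ∈ Ioc D (2 * D), ((X d).card : ℝ) ≤ C * (D * Real.log D ^ B) ∧
        ∀ d : ℕ, D < d → d ≤ 2 * D → Squarefree d → (∀ p : ℕ, p.Prime → p ∣ d → (p : ℝ) ≤ (D : ℝ) ^ η) →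
          d ∉ Z → ∀ a ∈ A, a ∉ X d → a.Coprime d →
          ∃ p r : ℕ, 1 ≤ r ∧ (r : ℝ) ≤ Real.log D ^ B ∧ ∀ j < k, (p + j * (d * r)).Prime ∧
            p + j * (d * r) ≡ a [MOD d] ∧ ((p + j * (d * r) : ℕ) : ℝ) < (d : ℝ) ^ (9 / 5 + ε) := by
  classical
  obtain ⟨θ, δ, h1, h2, h3, h4, h5⟩ := exists_theta ε hε
  obtain ⟨lam, hlam⟩ : ∃ lam : ℝ, lam = 9 / 5 + ε := ⟨_, rfl⟩
  have hl1 : 1 ≤ lam := by linarith
  have hl0 : 0 < lam := by linarith
  rw [← hlam] at h4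
  obtain ⟨η₀, hη₀, H⟩ := five_ninths hG θ δ h1 h2 h3
  have hmods := (Pool.Agent.Results.MP_00e23e_nt.MaxInsideFiveNinths.result θ δ h1 h2 h3).1
  obtain ⟨η, hη⟩ : ∃ η : ℝ, η = min η₀ (5 - 9 * θ - 2 * δ) := ⟨_, rfl⟩
  have hη0 : 0 < η := by rw [hη]; exact lt_min hη₀ h5
  have hηle : η ≤ η₀ := by rw [hη]; exact min_le_left _ _
  have hηle2 : η ≤ 5 - 9 * θ - 2 * δ := by rw [hη]; exact min_le_right _ _
  refine ⟨η, hη0, fun k U => ?_⟩
  obtain ⟨B₀, C₀, hC₀, HH⟩ := H k U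
  obtain ⟨D₀, hD₀⟩ := ev_fixed θ lam hl1 (by linarith) h4
  obtain ⟨D₁, hD₁⟩ : ∃ D₁ : ℕ, D₁ = max D₀ (max 3 ⌈Real.exp lam⌉₊) := ⟨_, rfl⟩
  have hD₁3 : 3 ≤ D₁ := by rw [hD₁]; exact (le_max_left _ _).trans (le_max_right _ _)
  have hlD₁ : 1 ≤ Real.log D₁ := log_ge_one hD₁3
  refine ⟨2 * B₀, 2 * C₀ + 2 * D₁ * Real.log D₁ ^ U, fun D hD => ?_⟩
  have hDr : (3 : ℝ) ≤ D := by exact_mod_cast hD
  have hD0 : (0 : ℝ) < D := by linarith
  have hlog1 := log_ge_one hD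
  have hlog0 : 0 < Real.log D := by linarith
  have hXU : 0 ≤ (D₁ : ℝ) * Real.log D₁ ^ U := by positivity
  rcases le_or_gt D₁ D with hDD | hDD
  · obtain ⟨-, f2, f3⟩ := hD₀ D (le_trans (by rw [hD₁]; exact le_max_left _ _) hDD)
    obtain ⟨x, hx⟩ : ∃ x : ℕ, x = ⌊(D : ℝ) ^ lam⌋₊ := ⟨_, rfl⟩
    rw [← hx] at f2 f3
    have hDx : D ≤ x := by exact_mod_cast f2
    have hx0 : (0 : ℝ) < x := by linarith
    have hxle : (x : ℝ) ≤ (D : ℝ) ^ lam := by rw [hx]; exact Nat.floor_le (by positivity)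
    have hlx1 : Real.log D ≤ Real.log x := Real.log_le_log hD0 f2
    have hlx2 : Real.log x ≤ Real.log D ^ 2 := by
      have g1 := Real.log_le_log hx0 hxle
      rw [Real.log_rpow hD0] at g1
      have g2 : lam ≤ Real.log D := by
        rw [Real.le_log_iff_exp_le hD0]
        have g3 : ⌈Real.exp lam⌉₊ ≤ D :=
          le_trans (by rw [hD₁]; exact (le_max_right _ _).trans (le_max_right _ _)) hDD
        refine (Nat.le_ceil _).trans ?_
        exact_mod_cast g3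
      rw [pow_two]
      nlinarith
    have hlxB : Real.log x ^ B₀ ≤ Real.log D ^ (2 * B₀) := by
      rw [pow_mul]
      exact pow_le_pow_left₀ (by linarith) hlx2 _
    obtain ⟨Z, hZ1, hZ2⟩ := HH x (by omega)
    have hφd : ∀ d : ℕ, D < d → d ≤ 2 * D → 1 / (2 * (D : ℝ)) ≤ 1 / (Nat.totient d : ℝ) := by
      intro d hd1 hd2
      have hφ : (0 : ℝ) < Nat.totient d := by exact_mod_cast Nat.totient_pos.2 (by omega)
      apply one_div_le_one_div_of_le hφ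
      have g1 : (Nat.totient d : ℝ) ≤ d := by exact_mod_cast Nat.totient_le d
      have g2 : (d : ℝ) ≤ 2 * D := by exact_mod_cast hd2
      linarith
    refine ⟨Z.filter (fun d => D < d ∧ d ≤ 2 * D), ?_, fun A hA hAc => ?_⟩
    · have g1 : ((Z.filter (fun d => D < d ∧ d ≤ 2 * D)).card : ℝ) * (1 / (2 * (D : ℝ))) ≤
          C₀ / Real.log x ^ U := by
        refine le_trans ?_ hZ1
        calc ((Z.filter (fun d => D < d ∧ d ≤ 2 * D)).card : ℝ) * (1 / (2 * (D : ℝ))) =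
            ∑ d ∈ Z.filter (fun d => D < d ∧ d ≤ 2 * D), 1 / (2 * (D : ℝ)) := by
              rw [sum_const, nsmul_eq_mul]
          _ ≤ ∑ d ∈ Z.filter (fun d => D < d ∧ d ≤ 2 * D), 1 / (Nat.totient d : ℝ) := by
              apply sum_le_sum
              intro d hd
              rw [mem_filter] at hd
              exact hφd d hd.2.1 hd.2.2
          _ ≤ ∑ d ∈ Z, 1 / (Nat.totient d : ℝ) :=
              sum_le_sum_of_subset_of_nonneg (filter_subset _ _) fun _ _ _ => by positivity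
      have g2 : C₀ / Real.log x ^ U ≤ C₀ / Real.log D ^ U :=
        div_le_div_of_nonneg_left hC₀.le (by positivity) (pow_le_pow_left₀ hlog0.le hlx1 _)
      have g3 : ((Z.filter (fun d => D < d ∧ d ≤ 2 * D)).card : ℝ) ≤ 2 * D * (C₀ / Real.log D ^ U) := by
        rw [mul_one_div, div_le_iff₀ (by positivity)] at g1
        refine g1.trans ?_
        rw [mul_comm]
        gcongr
      refine g3.trans ?_
      have g4 : 0 ≤ 2 * (D₁ : ℝ) * Real.log D₁ ^ U * (D / Real.log D ^ U) := by positivity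
      calc 2 * D * (C₀ / Real.log D ^ U) = 2 * C₀ * (D / Real.log D ^ U) := by ring
        _ ≤ (2 * C₀ + 2 * D₁ * Real.log D₁ ^ U) * (D / Real.log D ^ U) := by linarith
    · obtain ⟨X, hXA, hX1, hX2⟩ := hZ2 A (by
        intro a ha
        rw [mem_Icc]
        refine ⟨(hA a ha).1, ?_⟩
        rw [hx]
        apply Nat.le_floor
        refine (hA a ha).2.trans ?_
        apply Real.rpow_le_rpow_of_exponent_le (by linarith)
        linarith) (by
        refine hAc.trans ?_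
        calc (D : ℝ) ^ η ≤ (x : ℝ) ^ η := Real.rpow_le_rpow hD0.le f2 hη0.le
          _ ≤ (x : ℝ) ^ η₀ := Real.rpow_le_rpow_of_exponent_le (by linarith) hηle)
      refine ⟨X, hXA, ?_, ?_⟩
      · have g1 : (∑ d ∈ Ioc D (2 * D), ((X d).card : ℝ)) * (1 / (2 * (D : ℝ))) ≤
            C₀ * Real.log x ^ B₀ := by
          refine le_trans ?_ hX1
          rw [sum_mul]
          refine (sum_le_sum (g := fun d => ((X d).card : ℝ) / (Nat.totient d : ℝ)) ?_).trans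
            (sum_le_sum_of_subset_of_nonneg ?_ ?_)
          · intro d hd
            rw [mem_Ioc] at hd
            calc ((X d).card : ℝ) * (1 / (2 * (D : ℝ))) ≤ (X d).card * (1 / (Nat.totient d : ℝ)) := by
                  apply mul_le_mul_of_nonneg_left (hφd d hd.1 hd.2) (Nat.cast_nonneg _)
              _ = _ := by rw [mul_one_div]
          · intro d hd
            rw [mem_Ioc] at hd
            rw [mem_Icc]
            refine ⟨by omega, ?_⟩
            apply Nat.le_floor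
            refine le_trans ?_ f3
            exact_mod_cast hd.2
          · intro d _ _
            positivity
        rw [mul_one_div, div_le_iff₀ (by positivity)] at g1
        refine g1.trans ?_
        have g4 : 0 ≤ 2 * (D₁ : ℝ) * Real.log D₁ ^ U * (D * Real.log D ^ (2 * B₀)) := by positivity
        calc C₀ * Real.log x ^ B₀ * (2 * D) ≤ C₀ * Real.log D ^ (2 * B₀) * (2 * D) := by gcongr
          _ = 2 * C₀ * (D * Real.log D ^ (2 * B₀)) := by ring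
          _ ≤ (2 * C₀ + 2 * D₁ * Real.log D₁ ^ U) * (D * Real.log D ^ (2 * B₀)) := by linarith
      · intro d hd1 hd2 hsq hsm hdZ a ha haX hcop
        have hdm : d ∈ mods x θ δ := hmods x d (by omega) (by omega) (by
          refine le_trans ?_ f3
          exact_mod_cast hd2) hsq (by
          intro p hp hpd
          refine (hsm p hp hpd).trans ?_
          calc (D : ℝ) ^ η ≤ (x : ℝ) ^ η := Real.rpow_le_rpow hD0.le f2 hη0.le
            _ ≤ _ := Real.rpow_le_rpow_of_exponent_le (by linarith) hηle2)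
        have hno := hX2 d hdm (fun h => hdZ (mem_filter.2 ⟨h, hd1, hd2⟩)) a ha haX hcop
        unfold NoP at hno
        rw [not_not] at hno
        obtain ⟨p, r, hr1, hr2, hpr⟩ := hno
        refine ⟨p, r, hr1, hr2.trans hlxB, fun j hj => ?_⟩
        obtain ⟨g1, g2, g3⟩ := hpr j hj
        refine ⟨g1, g2, ?_⟩
        have g4 : ((p + j * (d * r) : ℕ) : ℝ) ≤ x := by exact_mod_cast g3
        refine lt_of_le_of_lt (g4.trans hxle) ?_
        rw [← hlam]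
        exact Real.rpow_lt_rpow hD0.le (by exact_mod_cast hd1) hl0
  · refine ⟨Ioc D (2 * D), ?_, fun A _ _ => ⟨fun _ => ∅, fun _ => empty_subset _, ?_, ?_⟩⟩
    · have g1 : Real.log D ^ U ≤ Real.log D₁ ^ U :=
        pow_le_pow_left₀ hlog0.le (Real.log_le_log hD0 (by exact_mod_cast hDD.le)) _
      rw [Nat.card_Ioc]
      have g2 : ((2 * D - D : ℕ) : ℝ) = D := by
        have : 2 * D - D = D := by omega
        rw [this]
      rw [g2]
      have g3 : (D : ℝ) ≤ Real.log D₁ ^ U * (D / Real.log D ^ U) := by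
        rw [mul_div_assoc', le_div_iff₀ (by positivity), mul_comm]
        gcongr
      have g4 : (1 : ℝ) ≤ D₁ := by exact_mod_cast (by omega : 1 ≤ D₁)
      have g5 : 0 ≤ Real.log D₁ ^ U * (D / Real.log D ^ U) := by positivity
      have g6 : 0 ≤ C₀ * (D / Real.log D ^ U) := by positivity
      nlinarith
    · simp only [card_empty, Nat.cast_zero, sum_const_zero]
      positivity
    · intro d hd1 hd2 _ _ hdZ
      exact absurd (mem_Ioc.2 ⟨hd1, hd2⟩) hdZ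

end Pool.Agent.Y866.PP
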