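import Pool.Agent.Y866.PP.Prim2
import Pool.Agent.Y866.LK.Page

/-!
# Linnik's theorem for progressions of primes
-/

set_option autoImplicit false
set_option maxHeartbeats 4000000

open Finset

namespace Pool.Agent.Y866.PP

theorem linnik (hG : PROG) : ∃ L : ℕ, ∀ k N : ℕ, ∃ B Q₀ : ℕ, ∀ Q : ℕ, Q₀ ≤ Q → ∃ q₁ : ℕ,
    2 ≤ q₁ ∧ Real.log Q ^ N < q₁ ∧
    ∀ q b : ℕ, 1 ≤ q → q ≤ Q → ¬ q₁ ∣ q → b.Coprime q →
      ∃ p r : ℕ, 1 ≤ r ∧ (r : ℝ) ≤ Real.log Q ^ B ∧ ∀ j < k, (p + j * (q * r)).Prime ∧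
        p + j * (q * r) ≡ b [MOD q] ∧ p + j * (q * r) ≤ Q ^ L := by
  classical
  obtain ⟨K, c, hK, hc, hpage'⟩ := Pool.Agent.Y866.LK.page
  refine ⟨16 * K, fun k N => ?_⟩
  obtain ⟨z0, hpage⟩ := hpage' N
  have hKr : (1 : ℝ) ≤ K := by exact_mod_cast hK
  obtain ⟨B, x₀, hprog⟩ := prog_interval hG k (1 / 2) (c / (3 * K)) (by norm_num) (by positivity)
  refine ⟨2 * B, max (max z0 x₀) (max 4 ⌈Real.exp (16 * (K + 1))⌉₊), fun Q hQ => ?_⟩
  have hQz : z0 ≤ Q := (le_max_left _ _).trans ((le_max_left _ _).trans hQ)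
  have hQx : x₀ ≤ Q := (le_max_right _ _).trans ((le_max_left _ _).trans hQ)
  have hQ4 : 4 ≤ Q := (le_max_left _ _).trans ((le_max_right _ _).trans hQ)
  have hQe : Real.exp (16 * (K + 1)) ≤ Q := by
    have h1 : ⌈Real.exp (16 * (K + 1))⌉₊ ≤ Q := (le_max_right _ _).trans ((le_max_right _ _).trans hQ)
    refine (Nat.le_ceil _).trans ?_
    exact_mod_cast h1
  have hQ0 : (0 : ℝ) < Q := by exact_mod_cast (by omega : 0 < Q)
  have hlogQ : 16 * ((K : ℝ) + 1) ≤ Real.log Q := by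
    rw [Real.le_log_iff_exp_le hQ0]
    exact hQe
  obtain ⟨z, hz⟩ : ∃ z : ℕ, z = Q ^ 16 := ⟨_, rfl⟩
  have hQle : Q ≤ z := by rw [hz]; exact Nat.le_self_pow (by norm_num) Q
  obtain ⟨q₁, hq₁, hq₁N, h⟩ := hpage z (hQz.trans hQle)
  refine ⟨q₁, hq₁, lt_of_le_of_lt (pow_le_pow_left₀ (by linarith)
    (Real.log_le_log hQ0 (by exact_mod_cast hQle)) N) hq₁N, fun q b hq hqQ hqq hb => ?_⟩
  have hsum := h q b hq (by rw [hz]; exact Nat.pow_le_pow_left hqQ 16) hqq hb
  have hφ : (0 : ℝ) < q.totient := by exact_mod_cast Nat.totient_pos.2 hq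
  have hz2 : 2 * Q ^ 2 ≤ z := by
    rw [hz]
    calc 2 * Q ^ 2 ≤ Q * Q ^ 2 := Nat.mul_le_mul_right _ (by omega)
      _ = Q ^ 3 := by ring
      _ ≤ Q ^ 16 := Nat.pow_le_pow_right (by omega) (by norm_num)
  have hz1 : 1 ≤ z := by omega
  have hzr : (1 : ℝ) ≤ z := by exact_mod_cast hz1
  have hz0 : (0 : ℝ) < z := by linarith
  obtain ⟨T, hT⟩ : ∃ T : Finset ℕ, T = (Ioc z (z ^ K)).filter (fun p => p.Prime ∧ p ≡ b [MOD q]) :=
    ⟨_, rfl⟩
  rw [← hT] at hsum
  obtain ⟨M, hM⟩ : ∃ M : ℕ, M = K * (Nat.log 2 z + 1) := ⟨_, rfl⟩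
  have hM1 : 1 ≤ M := by rw [hM]; exact Nat.mul_pos hK (Nat.succ_pos _)
  obtain ⟨f, hf⟩ : ∃ f : ℕ → ℕ, f = fun p => Nat.log 2 ((p - 1) / z) := ⟨_, rfl⟩
  have hzM : z ^ K < 2 ^ M := by
    rw [hM, mul_comm, pow_mul]
    exact Nat.pow_lt_pow_left (Nat.lt_pow_succ_log_self (by norm_num) z) (by omega)
  have hfp : ∀ p ∈ T, 2 ^ f p * z < p ∧ p ≤ 2 * (2 ^ f p * z) ∧ f p < M := by
    intro p hp
    rw [hT, mem_filter, mem_Ioc] at hp
    obtain ⟨⟨h1, h2⟩, -, -⟩ := hp
    rw [hf]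
    simp only
    have h3 : 1 ≤ (p - 1) / z := (Nat.one_le_div_iff hz1).2 (by omega)
    have h4 := Nat.pow_log_le_self 2 (show (p - 1) / z ≠ 0 by omega)
    have h5 := Nat.lt_pow_succ_log_self (b := 2) (by norm_num) ((p - 1) / z)
    have h6 : (p - 1) / z * z ≤ p - 1 := Nat.div_mul_le_self _ _
    have h7 : p - 1 < ((p - 1) / z + 1) * z := by
      nlinarith [Nat.div_add_mod (p - 1) z, Nat.mod_lt (p - 1) hz1]
    refine ⟨?_, ?_, ?_⟩
    · have h8 : 2 ^ Nat.log 2 ((p - 1) / z) * z ≤ (p - 1) / z * z := Nat.mul_le_mul_right _ h4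
      omega
    · have h8 : ((p - 1) / z + 1) * z ≤ 2 ^ (Nat.log 2 ((p - 1) / z) + 1) * z :=
        Nat.mul_le_mul_right _ h5
      have h9 : 2 ^ (Nat.log 2 ((p - 1) / z) + 1) * z = 2 * (2 ^ Nat.log 2 ((p - 1) / z) * z) := by ring
      omega
    · rw [← Nat.pow_lt_pow_iff_right (show 1 < 2 by norm_num)]
      refine lt_of_le_of_lt h4 (lt_of_le_of_lt ?_ hzM)
      exact (Nat.div_le_self _ _).trans (by omega)
  -- a dense scale
  have hex : ∃ i < M, c / (q.totient * M) * (2 ^ i * z) ≤ ((T.filter (fun p => f p = i)).card : ℝ) := by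
    by_contra hcon
    push Not at hcon
    have h1 : ∑ p ∈ T, (1 : ℝ) / p = ∑ i ∈ range M, ∑ p ∈ T.filter (fun p => f p = i), (1 : ℝ) / p :=
      (sum_fiberwise_of_maps_to (fun p hp => mem_range.2 (hfp p hp).2.2) _).symm
    have h2 : ∀ i ∈ range M, ∑ p ∈ T.filter (fun p => f p = i), (1 : ℝ) / p < c / (q.totient * M) := by
      intro i hi
      have hp2 : (0 : ℝ) < 2 ^ i * z := by positivity
      calc ∑ p ∈ T.filter (fun p => f p = i), (1 : ℝ) / p ≤
          ∑ p ∈ T.filter (fun p => f p = i), 1 / (2 ^ i * (z : ℝ)) := by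
            apply sum_le_sum
            intro p hp
            rw [mem_filter] at hp
            have h3 := (hfp p hp.1).1
            rw [hp.2] at h3
            have h4 : (2 : ℝ) ^ i * z ≤ p := by exact_mod_cast h3.le
            exact one_div_le_one_div_of_le hp2 h4
        _ = (T.filter (fun p => f p = i)).card / (2 ^ i * (z : ℝ)) := by
            rw [sum_const, nsmul_eq_mul]
            ring
        _ < c / (q.totient * M) := by
            rw [div_lt_iff₀ hp2]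
            exact hcon i (mem_range.1 hi)
    have h3 : ∑ i ∈ range M, ∑ p ∈ T.filter (fun p => f p = i), (1 : ℝ) / p <
        ∑ i ∈ range M, c / (q.totient * M) :=
      sum_lt_sum_of_nonempty ⟨0, mem_range.2 (by omega)⟩ h2
    rw [← h1, sum_const, card_range, nsmul_eq_mul] at h3
    have h4 : (M : ℝ) * (c / (q.totient * M)) = c / q.totient := by
      have : (0 : ℝ) < M := by exact_mod_cast (by omega : 0 < M)
      field_simp
    linarith
  obtain ⟨i, hi, hcard⟩ := hex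
  obtain ⟨P, hP⟩ : ∃ P : Finset ℕ, P = T.filter (fun p => f p = i) := ⟨_, rfl⟩
  rw [← hP] at hcard
  have hM0 : (0 : ℝ) < M := by exact_mod_cast (by omega : 0 < M)
  obtain ⟨u, hu⟩ : ∃ u : ℕ, u = 2 ^ i * z := ⟨_, rfl⟩
  have hur : (u : ℝ) = 2 ^ i * z := by rw [hu]; push_cast; ring
  have hzu : z ≤ u := by rw [hu]; exact Nat.le_mul_of_pos_left z (by positivity)
  have hur0 : (0 : ℝ) < u := by
    have : (z : ℝ) ≤ u := by exact_mod_cast hzu
    linarith
  have hP0 : P.Nonempty := by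
    rw [← card_pos]
    have : (0 : ℝ) < P.card := lt_of_lt_of_le (by positivity) hcard
    exact_mod_cast this
  have huK : u ≤ z ^ K := by
    obtain ⟨p, hp⟩ := hP0
    rw [hP, mem_filter] at hp
    have h1 := (hfp p hp.1).1
    rw [hp.2, ← hu] at h1
    have h2 := hp.1
    rw [hT, mem_filter, mem_Ioc] at h2
    omega
  have hlogz : Real.log z = 16 * Real.log Q := by
    rw [hz]
    push_cast
    rw [Real.log_pow]
    norm_num
  have hlogz1 : 1 ≤ Real.log z := by rw [hlogz]; linarith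
  have hMle : (M : ℝ) ≤ 3 * K * Real.log z := by
    have h1 : (2 : ℝ) ^ Nat.log 2 z ≤ z := by exact_mod_cast Nat.pow_log_le_self 2 (by omega)
    have h2 := Real.log_le_log (by positivity) h1
    rw [Real.log_pow] at h2
    have h3 := Real.log_two_gt_d9
    have h4 : (Nat.log 2 z : ℝ) ≤ 2 * Real.log z := by
      have : (0 : ℝ) ≤ (Nat.log 2 z : ℕ) := Nat.cast_nonneg _
      nlinarith
    rw [hM]
    push_cast
    nlinarith
  have hlog2u : Real.log z ≤ Real.log ((u + u : ℕ) : ℝ) := by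
    apply Real.log_le_log hz0
    have : z ≤ u + u := by omega
    exact_mod_cast this
  obtain ⟨p, d, hd1, hd2, hpd⟩ := hprog u u q (by omega) hq (by
      have h1 : ((u + u : ℕ) : ℝ) ^ (1 / 2 : ℝ) = Real.sqrt (2 * u) := by
        rw [Real.sqrt_eq_rpow]
        congr 1
        push_cast
        ring
      rw [h1]
      have h2 : (q : ℝ) * Real.sqrt (2 * u) = Real.sqrt (q ^ 2 * (2 * u)) := by
        rw [Real.sqrt_mul (x := (q : ℝ) ^ 2) (sq_nonneg _) (2 * u), Real.sqrt_sq (Nat.cast_nonneg q)]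
      rw [h2, Real.sqrt_le_left hur0.le]
      have h3 : 2 * q ^ 2 ≤ u := by
        calc 2 * q ^ 2 ≤ 2 * Q ^ 2 := by gcongr
          _ ≤ z := hz2
          _ ≤ u := hzu
      have h4 : 2 * (q : ℝ) ^ 2 ≤ u := by exact_mod_cast h3
      nlinarith) (b : ℤ) (by
      rw [Nat.isCoprime_iff_coprime]
      exact hb) P (by
      intro p hp
      rw [hP, mem_filter] at hp
      obtain ⟨h1, h2, h3⟩ := hfp p hp.1
      rw [hp.2, ← hu] at h1 h2
      have h4 := hp.1
      rw [hT, mem_filter] at h4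
      refine ⟨h4.2.1, h1, by omega, ?_⟩
      rw [Int.natCast_modEq_iff]
      exact h4.2.2) (by
      refine le_trans ?_ hcard
      rw [← hur]
      have hl0 : 0 < Real.log ((u + u : ℕ) : ℝ) := by linarith
      calc c / (3 * (K : ℝ)) * ((u : ℝ) / (q.totient * Real.log ((u + u : ℕ) : ℝ)))
          = c * u / (q.totient * (3 * K * Real.log ((u + u : ℕ) : ℝ))) := by field_simp
        _ ≤ c * u / (q.totient * M) := by
            apply div_le_div_of_nonneg_left (by positivity) (by positivity)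
            apply mul_le_mul_of_nonneg_left _ hφ.le
            refine hMle.trans ?_
            gcongr
        _ = c / (q.totient * M) * u := by ring)
  refine ⟨p, d, hd1, ?_, fun j hj => ?_⟩
  · refine hd2.trans ?_
    have h1 : Real.log ((u + u : ℕ) : ℝ) ≤ Real.log Q ^ 2 := by
      have h2 : ((u + u : ℕ) : ℝ) ≤ (z : ℝ) ^ (K + 1) := by
        have h3 : u + u ≤ z ^ (K + 1) := by
          calc u + u = 2 * u := by ring
            _ ≤ z * z ^ K := Nat.mul_le_mul (by omega) huK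
            _ = z ^ (K + 1) := by ring
        exact_mod_cast h3
      have h4 := Real.log_le_log (by
        have : 0 < u + u := by omega
        exact_mod_cast this) h2
      rw [Real.log_pow, hlogz] at h4
      push_cast at h4
      have h5 : ((K : ℝ) + 1) * (16 * Real.log Q) ≤ Real.log Q ^ 2 := by
        rw [pow_two]
        have : 0 ≤ Real.log Q := by linarith
        nlinarith
      push_cast
      linarith
    rw [mul_comm 2 B, pow_mul, ← pow_mul, mul_comm B 2, pow_mul]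
    apply pow_le_pow_left₀ _ h1
    linarith
  · have h1 := hpd j hj
    rw [hP, mem_filter, hT, mem_filter, mem_Ioc] at h1
    refine ⟨h1.1.2.1, h1.1.2.2, h1.1.1.2.trans (le_of_eq ?_)⟩
    rw [hz, ← pow_mul]

end Pool.Agent.Y866.PP
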