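import Pool.Agent.Y866.PP.Cnt
import Pool.Agent.TH926.EH.Lg

/-!
# Progressions of primes in the residue classes to all moduli up to `x ^ (1 - ε)`
-/

set_option autoImplicit false

open Finset

namespace Pool.Agent.Y866.PP

theorem pi_low (y : ℕ) (hy : 16 ≤ y) :
    (1 / 2 : ℝ) * (y / Real.log y) ≤ (((Icc 1 y).filter Nat.Prime).card : ℝ) := by
  have hc : ((Icc 1 y).filter Nat.Prime).card = Nat.primeCounting y := by
    rw [Nat.primeCounting, Nat.primeCounting', Nat.count_eq_card_filter_range]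
    congr 1
    ext p
    simp only [mem_filter, mem_Icc, mem_range]
    constructor
    · rintro ⟨⟨_, h⟩, hp⟩
      exact ⟨by omega, hp⟩
    · rintro ⟨h, hp⟩
      exact ⟨⟨hp.one_lt.le, by omega⟩, hp⟩
  rw [hc]
  have hyR : (16 : ℝ) ≤ y := by exact_mod_cast hy
  have hlog : 0 < Real.log y := Real.log_pos (by linarith)
  have h1 := Chebyshev.pi_ge y
  refine le_trans ?_ h1
  have h2 : Real.log ((y : ℝ) + 1) ≤ y / 16 + 2 := by
    have h3 : Real.log (((y : ℝ) + 1) / 16) ≤ ((y : ℝ) + 1) / 16 - 1 :=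
      Real.log_le_sub_one_of_pos (by positivity)
    have h4 : Real.log (((y : ℝ) + 1) / 16) = Real.log ((y : ℝ) + 1) - Real.log 16 :=
      Real.log_div (by positivity) (by norm_num)
    have h5 : Real.log 16 = 4 * Real.log 2 := by
      rw [show (16 : ℝ) = 2 ^ 4 by norm_num, Real.log_pow]; norm_num
    have h6 := Real.log_two_lt_d9
    rw [h4, h5] at h3
    linarith
  have h7 := Real.log_two_gt_d9
  rw [← mul_div_assoc]
  apply div_le_div_of_nonneg_right _ hlog.le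
  nlinarith

open Pool.Agent.TH926.EH (E pc Ex2 low2 Ex2_lt Ex2_empty Ex2_card E_le_of_not_mem2 low_total2' E_triv)

theorem err2_of_NoP (hG : PROG) (k : ℕ) (ε : ℝ) (hε : 0 < ε) : ∃ B x₀ : ℕ, 16 ≤ x₀ ∧
    ∀ x d a : ℕ, x₀ ≤ x → 1 ≤ d → (d : ℝ) ≤ (x : ℝ) ^ (1 - ε) → a.Coprime d → NoP k B x d a →
    1 / 4 * (x / (d.totient * Real.log x)) ≤ E x d a := by
  obtain ⟨B, x₀, hx₀, h⟩ := cnt_of_NoP hG k ε hε
  refine ⟨B, max x₀ 16, le_max_right _ _, fun x d a hx hd hdx hcop hno => ?_⟩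
  have h1 := h x d a ((le_max_left _ _).trans hx) hd hdx hcop hno
  have h2 := pi_low x ((le_max_right _ _).trans hx)
  have hφ : (0 : ℝ) < Nat.totient d := by exact_mod_cast Nat.totient_pos.2 hd
  have h3 : 1 / 2 * (x / (d.totient * Real.log x)) ≤ pc x / (Nat.totient d : ℝ) := by
    rw [le_div_iff₀ hφ]
    refine le_trans (le_of_eq ?_) h2
    field_simp
  have h4 : Pool.Agent.H442R2.EHI.piAP x d a = (cnt x d a : ℝ) := rfl
  unfold E
  rw [h4, abs_sub_comm]
  refine le_trans ?_ (le_abs_self _)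
  linarith

open Classical in
/-- the moduli up to `x ^ (1 - ε)`, all classes outside small sets -/
theorem max_inside (hG : PROG) (k : ℕ) (ε : ℝ) (hε : 0 < ε) (U : ℕ) : ∃ (B : ℕ) (C : ℝ),
    ∀ x : ℕ, 3 ≤ x → ∃ X : ℕ → Finset ℕ,
      (∀ d : ℕ, (d : ℝ) * Real.log x ^ B ≤ Real.sqrt x → X d = ∅) ∧
      (∀ D : ℕ, ∑ d ∈ Icc 1 D, ((X d).card : ℝ) ≤ C * ((D : ℝ) ^ 3 * Real.log x ^ B / x)) ∧
      ∑ d ∈ (Icc 1 ⌊(x : ℝ) ^ (1 - ε)⌋₊).filter
        (fun d => ∃ a < d, a.Coprime d ∧ a ∉ X d ∧ NoP k B x d a), 1 / (Nat.totient d : ℝ) ≤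
          C / Real.log x ^ U := by
  obtain ⟨B₀, x₀, hx₀, h⟩ := err2_of_NoP hG k ε hε
  obtain ⟨C₁, hC₁0, hC₁⟩ := low_total2' (U + 1)
  obtain ⟨x₂, hx₂⟩ : ∃ x₂ : ℕ, ∀ x : ℕ, x₂ ≤ x → Real.log x ^ (U + 2) ≤ (x : ℝ) ^ ε := by
    have h1 : Filter.Tendsto (fun X : ℕ => (X : ℝ)) Filter.atTop Filter.atTop :=
      tendsto_natCast_atTop_atTop
    have h2 := (isLittleO_log_rpow_rpow_atTop (s := ε) ((U + 2 : ℕ) : ℝ) hε).bound one_pos
    have h3 := h1.eventually (h2.and (Filter.eventually_ge_atTop (1 : ℝ)))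
    obtain ⟨x₂, hx₂⟩ := Filter.eventually_atTop.1 h3
    refine ⟨x₂, fun x hx => ?_⟩
    obtain ⟨g1, g2⟩ := hx₂ x hx
    rw [Real.rpow_natCast, Real.norm_of_nonneg (pow_nonneg (Real.log_nonneg g2) _),
      Real.norm_of_nonneg (by positivity), one_mul] at g1
    exact g1
  obtain ⟨X₁, hX₁⟩ : ∃ X₁ : ℕ, X₁ = max x₀ (max x₂ 3) := ⟨_, rfl⟩
  have hX₁3 : 3 ≤ X₁ := by rw [hX₁]; exact (le_max_right _ _).trans (le_max_right _ _)
  obtain ⟨B, hB⟩ : ∃ B : ℕ, B = max B₀ (7 * (U + 5)) := ⟨_, rfl⟩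
  have hBB₀ : B₀ ≤ B := by rw [hB]; exact le_max_left _ _
  have hBU : 7 * (U + 5) ≤ B := by rw [hB]; exact le_max_right _ _
  have hlX₁ : 1 ≤ Real.log X₁ := log_ge_one hX₁3
  refine ⟨B, 1552 + 4 * C₁ + X₁ * Real.log X₁ ^ U, fun x hx => ?_⟩
  have hxr : (3 : ℝ) ≤ x := by exact_mod_cast hx
  have hx0 : (0 : ℝ) < x := by linarith
  have hlog1 := log_ge_one hx
  have hlog0 : 0 < Real.log x := by linarith
  have hXU : 0 ≤ (X₁ : ℝ) * Real.log X₁ ^ U := by positivity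
  obtain ⟨V, hV⟩ : ∃ V : ℝ, V = Real.log x ^ (U + 5) := ⟨_, rfl⟩
  have hVlog : Real.log x ≤ V := by
    rw [hV]
    calc Real.log x = Real.log x ^ 1 := (pow_one _).symm
      _ ≤ _ := pow_le_pow_right₀ hlog1 (by omega)
  have hV0 : 0 < V := by linarith
  have hfl : ∀ d : ℕ, d ≤ ⌊(x : ℝ) ^ (1 - ε)⌋₊ → (d : ℝ) ≤ (x : ℝ) ^ (1 - ε) := by
    intro d hd
    have h6 : (d : ℝ) ≤ (⌊(x : ℝ) ^ (1 - ε)⌋₊ : ℕ) := by exact_mod_cast hd
    exact h6.trans (Nat.floor_le (by positivity))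
  have hle : (x : ℝ) ^ (1 - ε) ≤ x := by
    calc (x : ℝ) ^ (1 - ε) ≤ (x : ℝ) ^ (1 : ℝ) :=
          Real.rpow_le_rpow_of_exponent_le (by linarith) (by linarith)
      _ = x := Real.rpow_one _
  refine ⟨Ex2 x V, fun d hd => ?_, fun D => ?_, ?_⟩
  · apply Ex2_empty x V hV0 d
    refine le_trans ?_ hd
    rw [hV]
    apply mul_le_mul_of_nonneg_left _ (Nat.cast_nonneg d)
    exact pow_le_pow_right₀ hlog1 (by omega)
  · refine (Ex2_card x hx V hVlog D).trans ?_
    have h1 : V ^ 7 ≤ Real.log x ^ B := by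
      rw [hV, ← pow_mul]
      exact pow_le_pow_right₀ hlog1 (by omega)
    calc 1552 * V ^ 7 * ((D : ℝ) ^ 3 / x) ≤ 1552 * Real.log x ^ B * ((D : ℝ) ^ 3 / x) := by gcongr
      _ = 1552 * ((D : ℝ) ^ 3 * Real.log x ^ B / x) := by ring
      _ ≤ (1552 + 4 * C₁ + X₁ * Real.log X₁ ^ U) * ((D : ℝ) ^ 3 * Real.log x ^ B / x) := by
          apply mul_le_mul_of_nonneg_right _ (by positivity)
          linarith
  · obtain ⟨Q, hQ⟩ : ∃ Q : ℕ, Q = ⌊(x : ℝ) ^ (1 - ε)⌋₊ := ⟨_, rfl⟩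
    rw [← hQ] at hfl ⊢
    obtain ⟨Z, hZ⟩ : ∃ Z : Finset ℕ, Z = (Icc 1 Q).filter
        (fun d => ∃ a < d, a.Coprime d ∧ a ∉ Ex2 x V d ∧ NoP k B x d a) := ⟨_, rfl⟩
    rw [← hZ]
    rcases le_or_gt X₁ x with hxX | hxX
    · have hxx₀ : x₀ ≤ x := by
        refine le_trans ?_ hxX
        rw [hX₁]; exact le_max_left _ _
      have hxx₂ : x₂ ≤ x := by
        refine le_trans ?_ hxX
        rw [hX₁]; exact (le_max_left _ _).trans (le_max_right _ _)
      have h4 := hx₂ x hxx₂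
      have hex : ∀ d : ℕ, ∃ a : ℕ, d ∈ Z → a < d ∧ a.Coprime d ∧ a ∉ Ex2 x V d ∧ NoP k B x d a := by
        intro d
        by_cases hd : d ∈ Z
        · have hd' := hd
          rw [hZ, mem_filter] at hd'
          obtain ⟨a, ha⟩ := hd'.2
          exact ⟨a, fun _ => ha⟩
        · exact ⟨0, fun h => absurd h hd⟩
      choose l hl using hex
      have hZQ : ∀ d ∈ Z, d ∈ Icc 1 Q := by
        intro d hd
        rw [hZ, mem_filter] at hd
        exact hd.1
      have hdx : ∀ d ∈ Icc 1 Q, (d : ℝ) ≤ (x : ℝ) ^ (1 - ε) := fun d hd =>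
        hfl d (mem_Icc.1 hd).2
      have hdx' : ∀ d ∈ Icc 1 Q, d ≤ x := fun d hd => by
        have := (hdx d hd).trans hle
        exact_mod_cast this
      obtain ⟨f, hf⟩ : ∃ f : ℕ → ℝ, f = fun d => if d ∈ Z then E x d (l d) else 0 := ⟨_, rfl⟩
      have h5 := hC₁ x hx V (by
        rw [hV]) Q (by
        have h6 : (Q : ℝ) ≤ (x : ℝ) ^ (1 - ε) := hfl Q le_rfl
        calc (Q : ℝ) * Real.log x ^ (U + 1 + 1) ≤ (x : ℝ) ^ (1 - ε) * (x : ℝ) ^ ε := by gcongr
          _ = x := by rw [← Real.rpow_add hx0]; simp) f (by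
        intro d hd
        rw [hf]
        simp only
        have hd1 := (mem_Icc.1 hd).1
        have hd0 : (0 : ℝ) < d := by exact_mod_cast hd1
        split_ifs with hdZ
        · obtain ⟨g1, g2, g3, -⟩ := hl d hdZ
          apply E_le_of_not_mem2 V x d (l d) hd1 (hdx' d hd) g2
          rw [Nat.mod_eq_of_lt g1]
          exact g3
        · exact add_nonneg (Pool.Agent.TH926.EH.low2_nonneg V x d) (by positivity)) (by
        intro d hd
        rw [hf]
        simp only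
        split_ifs with hdZ
        · exact E_triv x d (l d) (mem_Icc.1 hd).1
        · exact hx0.le)
      have h6 : ∀ d ∈ Z, 1 / (Nat.totient d : ℝ) ≤ 4 * Real.log x / x * f d := by
        intro d hd
        have hd1 := (mem_Icc.1 (hZQ d hd)).1
        obtain ⟨g1, g2, g3, g4⟩ := hl d hd
        have hφ : (0 : ℝ) < Nat.totient d := by exact_mod_cast Nat.totient_pos.2 hd1
        have h7 := h x d (l d) hxx₀ hd1 (hdx d (hZQ d hd)) g2 (NoP_mono hBB₀ hlog1 g4)
        rw [hf]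
        simp only
        rw [if_pos hd]
        calc 1 / (Nat.totient d : ℝ) = 4 * Real.log x / x * (1 / 4 * (x / (d.totient * Real.log x))) := by
              field_simp
          _ ≤ _ := by gcongr
      refine (sum_le_sum h6).trans ?_
      rw [← mul_sum]
      have h7 : ∑ d ∈ Z, f d ≤ ∑ d ∈ Icc 1 Q, f d := by
        apply sum_le_sum_of_subset_of_nonneg hZQ
        intro d _ hdZ
        rw [hf]
        simp only
        rw [if_neg hdZ]
      calc 4 * Real.log x / x * ∑ d ∈ Z, f d ≤ 4 * Real.log x / x * (C₁ * (x / Real.log x ^ (U + 1))) := by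
            gcongr
            exact h7.trans h5
        _ = 4 * C₁ / Real.log x ^ U := by
            rw [pow_succ]
            field_simp
        _ ≤ (1552 + 4 * C₁ + X₁ * Real.log X₁ ^ U) / Real.log x ^ U := by
            gcongr
            linarith
    · have hsm := small_const U hx hxX
      have h5 : ∀ d ∈ Z, 1 / (Nat.totient d : ℝ) ≤ 1 := by
        intro d hd
        rw [hZ, mem_filter, mem_Icc] at hd
        have hφ : (1 : ℝ) ≤ Nat.totient d := by exact_mod_cast Nat.totient_pos.2 (by omega : 0 < d)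
        rw [div_le_one (by linarith)]
        exact hφ
      have h6 : (Z.card : ℝ) ≤ X₁ := by
        have h7 : Z.card ≤ Q := by
          rw [hZ]
          refine (card_filter_le _ _).trans ?_
          rw [Nat.card_Icc]
          omega
        have h8 : (Q : ℝ) ≤ x := (hfl Q le_rfl).trans hle
        have h9 : (x : ℝ) ≤ X₁ := by exact_mod_cast hxX.le
        have h10 : (Z.card : ℝ) ≤ Q := by exact_mod_cast h7
        linarith
      refine (sum_le_sum h5).trans ?_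
      rw [sum_const, nsmul_eq_mul, mul_one]
      calc (Z.card : ℝ) ≤ X₁ * 1 := by rw [mul_one]; exact h6
        _ ≤ X₁ * (Real.log X₁ ^ U * (1 / Real.log x ^ U)) := by gcongr
        _ = X₁ * Real.log X₁ ^ U / Real.log x ^ U := by ring
        _ ≤ (1552 + 4 * C₁ + X₁ * Real.log X₁ ^ U) / Real.log x ^ U := by
            gcongr
            linarith

end Pool.Agent.Y866.PP
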