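import Pool.Agent.Y866.PP.Cnt
import Pool.Agent.Results.MP_00e23e_nt.ShortIntervalResidues

/-!
# Progressions of primes in the residue classes to large moduli, almost all residues
-/

set_option autoImplicit false

open Finset

namespace Pool.Agent.Y866.PP

open Classical in
/-- **(2)** the moduli up to `x ^ (1 - ε)`, almost all residues of short intervals -/
theorem short_residues (hG : PROG) (k : ℕ) (ε : ℝ) (hε : 0 < ε) (U : ℕ) : ∃ (B : ℕ) (C : ℝ),
    ∀ x : ℕ, 3 ≤ x → ∀ A a0 : ℕ, a0 + A ≤ x →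
    ((x : ℝ) ^ (1 / 3 : ℝ) * Real.log x ^ B ≤ A →
      ∑ a ∈ Ioc a0 (a0 + A), ∑ d ∈ (Icc 1 ⌊(x : ℝ) ^ (1 - ε)⌋₊).filter
        (fun d => a.Coprime d ∧ NoP k B x d a), 1 / (Nat.totient d : ℝ) ≤
          C * (A / Real.log x ^ U)) ∧
    (∀ D : ℕ, (x : ℝ) ^ (1 / 2 : ℝ) ≤ D → (D : ℝ) ≤ (x : ℝ) ^ (1 - ε) →
      x * Real.log x ^ B ≤ (A : ℝ) * D →
      ((∑ a ∈ Ioc a0 (a0 + A), ((Ioc D (2 * D)).filter
        (fun d => a.Coprime d ∧ NoP k B x d a)).card : ℕ) : ℝ) ≤ C * (A * D / Real.log x ^ U)) := by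
  obtain ⟨B₀, x₀, hx₀, h⟩ := err_of_NoP hG k (ε / 2) (by positivity)
  obtain ⟨B₁, C₁, hC₁⟩ := Pool.Agent.Results.MP_00e23e_nt.ShortIntervalResidues.result ε hε (U + 1)
  obtain ⟨x₂, hx₂⟩ : ∃ x₂ : ℕ, ∀ x : ℕ, x₂ ≤ x → 2 ≤ (x : ℝ) ^ (ε / 2) := by
    have h1 : Filter.Tendsto (fun X : ℕ => (X : ℝ) ^ (ε / 2)) Filter.atTop Filter.atTop :=
      (tendsto_rpow_atTop (by positivity)).comp tendsto_natCast_atTop_atTop
    exact Filter.eventually_atTop.1 (h1.eventually_ge_atTop 2)
  obtain ⟨X₁, hX₁⟩ : ∃ X₁ : ℕ, X₁ = max x₀ (max x₂ 3) := ⟨_, rfl⟩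
  have hX₁3 : 3 ≤ X₁ := by rw [hX₁]; exact (le_max_right _ _).trans (le_max_right _ _)
  obtain ⟨B, hB⟩ : ∃ B : ℕ, B = max B₀ B₁ := ⟨_, rfl⟩
  have hBB₀ : B₀ ≤ B := by rw [hB]; exact le_max_left _ _
  have hBB₁ : B₁ ≤ B := by rw [hB]; exact le_max_right _ _
  have hlX₁ : 1 ≤ Real.log X₁ := log_ge_one hX₁3
  refine ⟨B, 4 * |C₁| + X₁ * Real.log X₁ ^ U, fun x hx A a0 hA => ?_⟩
  have hxr : (3 : ℝ) ≤ x := by exact_mod_cast hx
  have hx0 : (0 : ℝ) < x := by linarith
  have hlog1 := log_ge_one hx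
  have hlog0 : 0 < Real.log x := by linarith
  have hX₁r : (3 : ℝ) ≤ X₁ := by exact_mod_cast hX₁3
  have hbig : 1 ≤ Real.log X₁ ^ U := one_le_pow₀ hlX₁
  rcases le_or_gt X₁ x with hxX | hxX
  · have hxx₀ : x₀ ≤ x := by
      refine le_trans ?_ hxX
      rw [hX₁]; exact le_max_left _ _
    have hxx₂ : x₂ ≤ x := by
      refine le_trans ?_ hxX
      rw [hX₁]; exact (le_max_left _ _).trans (le_max_right _ _)
    have h2 := hx₂ x hxx₂
    obtain ⟨g1, g2⟩ := hC₁ x hx A a0 hA
    have hex : (x : ℝ) ^ (1 - ε / 2) = (x : ℝ) ^ (1 - ε) * (x : ℝ) ^ (ε / 2) := by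
      rw [← Real.rpow_add hx0]; congr 1; ring
    have hpos : (0 : ℝ) < (x : ℝ) ^ (1 - ε) := by positivity
    -- the main bound for one pair
    have hpair : ∀ d a : ℕ, 1 ≤ d → (d : ℝ) ≤ (x : ℝ) ^ (1 - ε / 2) → a.Coprime d → NoP k B x d a →
        1 / (Nat.totient d : ℝ) ≤ 2 * Real.log x / x *
          |Pool.Agent.Results.MP_00e23e_nt.ShortIntervalResidues.E x d a| := by
      intro d a hd hdx hcop hno
      have hφ : (0 : ℝ) < Nat.totient d := by exact_mod_cast Nat.totient_pos.2 hd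
      have h3 := h x d a hxx₀ hd hdx hcop (NoP_mono hBB₀ hlog1 hno)
      have h4 : Pool.Agent.Results.MP_00e23e_nt.ShortIntervalResidues.E x d a =
          (cnt x d a : ℝ) - (∫ t in (2 : ℝ)..x, 1 / Real.log t) / (Nat.totient d : ℝ) := rfl
      rw [h4]
      calc 1 / (Nat.totient d : ℝ) = 2 * Real.log x / x * (1 / 2 * (x / (d.totient * Real.log x))) := by
            field_simp
        _ ≤ _ := by gcongr
    constructor
    · intro hA2
      have hA3 : (x : ℝ) ^ (1 / 3 : ℝ) * Real.log x ^ B₁ ≤ A := by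
        refine le_trans ?_ hA2
        gcongr
      have h3 := g1 hA3
      have h4 : ∑ a ∈ Ioc a0 (a0 + A), ∑ d ∈ (Icc 1 ⌊(x : ℝ) ^ (1 - ε)⌋₊).filter
          (fun d => a.Coprime d ∧ NoP k B x d a), 1 / (Nat.totient d : ℝ) ≤
          2 * Real.log x / x * ∑ a ∈ Ioc a0 (a0 + A), ∑ d ∈ (Icc 1 ⌊(x : ℝ) ^ (1 - ε)⌋₊).filter
            (fun d => a.Coprime d), |Pool.Agent.Results.MP_00e23e_nt.ShortIntervalResidues.E x d a| := by
        rw [mul_sum]
        apply sum_le_sum
        intro a _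
        rw [mul_sum]
        refine (sum_le_sum (g := fun d => 2 * Real.log x / x *
          |Pool.Agent.Results.MP_00e23e_nt.ShortIntervalResidues.E x d a|) ?_).trans
          (sum_le_sum_of_subset_of_nonneg ?_ ?_)
        · intro d hd
          rw [mem_filter, mem_Icc] at hd
          refine hpair d a hd.1.1 ?_ hd.2.1 hd.2.2
          have h5 : (d : ℝ) ≤ (x : ℝ) ^ (1 - ε) := by
            have h6 : (d : ℝ) ≤ (⌊(x : ℝ) ^ (1 - ε)⌋₊ : ℕ) := by exact_mod_cast hd.1.2
            exact h6.trans (Nat.floor_le hpos.le)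
          rw [hex]
          nlinarith
        · intro d hd
          rw [mem_filter] at hd ⊢
          exact ⟨hd.1, hd.2.1⟩
        · intro d _ _
          positivity
      refine h4.trans ?_
      calc 2 * Real.log x / x * ∑ a ∈ Ioc a0 (a0 + A), ∑ d ∈ (Icc 1 ⌊(x : ℝ) ^ (1 - ε)⌋₊).filter
            (fun d => a.Coprime d), |Pool.Agent.Results.MP_00e23e_nt.ShortIntervalResidues.E x d a|
          ≤ 2 * Real.log x / x * (|C₁| * (A * x / Real.log x ^ (U + 1))) := by
            apply mul_le_mul_of_nonneg_left _ (by positivity)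
            refine h3.trans ?_
            apply mul_le_mul_of_nonneg_right (le_abs_self C₁)
            positivity
        _ = 2 * |C₁| * (A / Real.log x ^ U) := by
            rw [pow_succ]
            field_simp
        _ ≤ (4 * |C₁| + X₁ * Real.log X₁ ^ U) * (A / Real.log x ^ U) := by
            apply mul_le_mul_of_nonneg_right _ (by positivity)
            have h7 : 0 ≤ |C₁| := abs_nonneg C₁
            have h8 : 0 ≤ (X₁ : ℝ) * Real.log X₁ ^ U := by positivity
            linarith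
    · intro D hD1 hD2 hAD
      have hAD' : x * Real.log x ^ B₁ ≤ (A : ℝ) * D := by
        refine le_trans ?_ hAD
        gcongr
      have h3 := g2 D hD1 hD2 hAD'
      have hD0 : (0 : ℝ) < D := lt_of_lt_of_le (by positivity) hD1
      push_cast
      have h4 : ∑ a ∈ Ioc a0 (a0 + A), (((Ioc D (2 * D)).filter
          (fun d => a.Coprime d ∧ NoP k B x d a)).card : ℝ) ≤
          4 * D * Real.log x / x * ∑ a ∈ Ioc a0 (a0 + A), ∑ d ∈ (Ioc D (2 * D)).filter
            (fun d => a.Coprime d), |Pool.Agent.Results.MP_00e23e_nt.ShortIntervalResidues.E x d a| := by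
        rw [mul_sum]
        apply sum_le_sum
        intro a _
        rw [mul_sum]
        rw [card_eq_sum_ones, Nat.cast_sum]
        refine (sum_le_sum (g := fun d => 4 * D * Real.log x / x *
          |Pool.Agent.Results.MP_00e23e_nt.ShortIntervalResidues.E x d a|) ?_).trans
          (sum_le_sum_of_subset_of_nonneg ?_ ?_)
        · intro d hd
          rw [mem_filter, mem_Ioc] at hd
          have hd1 : 1 ≤ d := by omega
          have hφ : (0 : ℝ) < Nat.totient d := by exact_mod_cast Nat.totient_pos.2 hd1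
          have hd2D : (d : ℝ) ≤ 2 * D := by exact_mod_cast hd.1.2
          have h6 := hpair d a hd1 (by
            rw [hex]
            calc (d : ℝ) ≤ 2 * D := hd2D
              _ ≤ (x : ℝ) ^ (ε / 2) * (x : ℝ) ^ (1 - ε) := by gcongr
              _ = _ := by ring) hd.2.1 hd.2.2
          have h7 : (1 : ℝ) ≤ 2 * D * (1 / (Nat.totient d : ℝ)) := by
            rw [mul_one_div, le_div_iff₀ hφ, one_mul]
            refine le_trans ?_ hd2D
            exact_mod_cast Nat.totient_le d
          push_cast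
          calc (1 : ℝ) ≤ 2 * D * (1 / (Nat.totient d : ℝ)) := h7
            _ ≤ 2 * D * (2 * Real.log x / x *
                |Pool.Agent.Results.MP_00e23e_nt.ShortIntervalResidues.E x d a|) := by gcongr
            _ = _ := by ring
        · intro d hd
          rw [mem_filter] at hd ⊢
          exact ⟨hd.1, hd.2.1⟩
        · intro d _ _
          positivity
      refine h4.trans ?_
      calc 4 * D * Real.log x / x * ∑ a ∈ Ioc a0 (a0 + A), ∑ d ∈ (Ioc D (2 * D)).filter
            (fun d => a.Coprime d), |Pool.Agent.Results.MP_00e23e_nt.ShortIntervalResidues.E x d a|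
          ≤ 4 * D * Real.log x / x * (|C₁| * (A * x / Real.log x ^ (U + 1))) := by
            apply mul_le_mul_of_nonneg_left _ (by positivity)
            refine h3.trans ?_
            apply mul_le_mul_of_nonneg_right (le_abs_self C₁)
            positivity
        _ = 4 * |C₁| * (A * D / Real.log x ^ U) := by
            rw [pow_succ]
            field_simp
        _ ≤ (4 * |C₁| + X₁ * Real.log X₁ ^ U) * (A * D / Real.log x ^ U) := by
            apply mul_le_mul_of_nonneg_right _ (by positivity)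
            have h8 : 0 ≤ (X₁ : ℝ) * Real.log X₁ ^ U := by positivity
            linarith
  · have hsm := small_const U hx hxX
    have hxX₁ : (x : ℝ) ≤ X₁ := by exact_mod_cast hxX.le
    constructor
    · intro _
      have h1 : ∑ a ∈ Ioc a0 (a0 + A), ∑ d ∈ (Icc 1 ⌊(x : ℝ) ^ (1 - ε)⌋₊).filter
          (fun d => a.Coprime d ∧ NoP k B x d a), 1 / (Nat.totient d : ℝ) ≤ A * X₁ := by
        have h2 : ∀ a ∈ Ioc a0 (a0 + A), ∑ d ∈ (Icc 1 ⌊(x : ℝ) ^ (1 - ε)⌋₊).filter
          (fun d => a.Coprime d ∧ NoP k B x d a), 1 / (Nat.totient d : ℝ) ≤ X₁ := by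
          intro a _
          have h3 : ∀ d ∈ (Icc 1 ⌊(x : ℝ) ^ (1 - ε)⌋₊).filter
            (fun d => a.Coprime d ∧ NoP k B x d a), 1 / (Nat.totient d : ℝ) ≤ 1 := by
            intro d hd
            rw [mem_filter, mem_Icc] at hd
            have hφ : (1 : ℝ) ≤ Nat.totient d := by
              exact_mod_cast Nat.totient_pos.2 (by omega : 0 < d)
            rw [div_le_one (by linarith)]
            exact hφ
          refine (sum_le_sum h3).trans ?_
          rw [sum_const, nsmul_eq_mul, mul_one]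
          have h4 := card_filter_le (Icc 1 ⌊(x : ℝ) ^ (1 - ε)⌋₊) (fun d => a.Coprime d ∧ NoP k B x d a)
          rw [Nat.card_Icc] at h4
          have h5 : (((Icc 1 ⌊(x : ℝ) ^ (1 - ε)⌋₊).filter
            (fun d => a.Coprime d ∧ NoP k B x d a)).card : ℝ) ≤ (⌊(x : ℝ) ^ (1 - ε)⌋₊ : ℕ) := by
            have : ((Icc 1 ⌊(x : ℝ) ^ (1 - ε)⌋₊).filter
              (fun d => a.Coprime d ∧ NoP k B x d a)).card ≤ ⌊(x : ℝ) ^ (1 - ε)⌋₊ := by omega
            exact_mod_cast this
          refine h5.trans ((Nat.floor_le (by positivity)).trans ?_)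
          calc (x : ℝ) ^ (1 - ε) ≤ (x : ℝ) ^ (1 : ℝ) :=
                Real.rpow_le_rpow_of_exponent_le (by linarith) (by linarith)
            _ = x := Real.rpow_one _
            _ ≤ X₁ := hxX₁
        refine (sum_le_sum h2).trans ?_
        rw [sum_const, nsmul_eq_mul, Nat.card_Ioc, Nat.add_sub_cancel_left]
      refine h1.trans ?_
      calc (A : ℝ) * X₁ = A * X₁ * 1 := by ring
        _ ≤ A * X₁ * (Real.log X₁ ^ U * (1 / Real.log x ^ U)) := by gcongr
        _ = X₁ * Real.log X₁ ^ U * (A / Real.log x ^ U) := by ring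
        _ ≤ (4 * |C₁| + X₁ * Real.log X₁ ^ U) * (A / Real.log x ^ U) := by
            apply mul_le_mul_of_nonneg_right _ (by positivity)
            have h7 : 0 ≤ |C₁| := abs_nonneg C₁
            linarith
    · intro D _ _ _
      have h1 : ((∑ a ∈ Ioc a0 (a0 + A), ((Ioc D (2 * D)).filter
        (fun d => a.Coprime d ∧ NoP k B x d a)).card : ℕ) : ℝ) ≤ A * D := by
        have h2 : ∑ a ∈ Ioc a0 (a0 + A), ((Ioc D (2 * D)).filter
            (fun d => a.Coprime d ∧ NoP k B x d a)).card ≤ A * D := by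
          have h3 : ∀ a ∈ Ioc a0 (a0 + A), ((Ioc D (2 * D)).filter
            (fun d => a.Coprime d ∧ NoP k B x d a)).card ≤ D := by
            intro a _
            refine (card_filter_le _ _).trans ?_
            rw [Nat.card_Ioc]
            omega
          refine (sum_le_sum h3).trans ?_
          rw [sum_const, smul_eq_mul, Nat.card_Ioc, Nat.add_sub_cancel_left]
        exact_mod_cast h2
      refine h1.trans ?_
      calc (A : ℝ) * D = A * D * 1 := by ring
        _ ≤ A * D * (Real.log X₁ ^ U * (1 / Real.log x ^ U)) := by gcongr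
        _ = Real.log X₁ ^ U * (A * D / Real.log x ^ U) := by ring
        _ ≤ (4 * |C₁| + X₁ * Real.log X₁ ^ U) * (A * D / Real.log x ^ U) := by
            apply mul_le_mul_of_nonneg_right _ (by positivity)
            have h7 : 0 ≤ |C₁| := abs_nonneg C₁
            nlinarith

end Pool.Agent.Y866.PP
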